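import Pool.Agent.Helper36.Form.CIII

/-!
# Type III: minimality, preliminary lemmas
-/

namespace Pool.Agent.Helper36.Form

open Pool.Agent.Helper38.Form Function

section Final

variable {H V W Z : Type} [Group H] [AddCommGroup V] [AddCommGroup W] [AddCommGroup Z]
  [DistribMulAction H V] [DistribMulAction H W] [DistribMulAction H Z]
  [Finite H] [Finite V] [Finite W] [Finite Z]

theorem final_step (F : Formation) (p : ℕ) (β : V →+ W →+ Z)
    (hβ : ∀ (h : H) (v : V) (w : W), β (h • v) (h • w) = h • β v w)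
    (hIII : IsTypeIII p (H := H) β)
    (S : AddSubgroup Z) (hS : S ≠ ⊤)
    [DistribMulAction H (Z ⧸ S)]
    (hact : ∀ (h : H) (z : Z), QuotientAddGroup.mk' S (h • z) = h • QuotientAddGroup.mk' S z)
    (hβ₁ : ∀ (h : H) (v : V) (w : W), (β.compr₂ (QuotientAddGroup.mk' S)) (h • v) (h • w) =
      h • (β.compr₂ (QuotientAddGroup.mk' S)) v w)
    (hmem : F.Mem (Heis (β.compr₂ (QuotientAddGroup.mk' S)) ⋊[heisAct _ hβ₁] H)) :
    F.Mem (Heis β ⋊[heisAct β hβ] H) := by
  obtain ⟨-, -, -, -, -, -, -, hfaith, -, hgen, hsym, hirr⟩ := hIII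
  let mk : Z →+ Z ⧸ S := QuotientAddGroup.mk' S
  have hmk : Surjective mk := QuotientAddGroup.mk'_surjective S
  have halt : ∀ x y, altForm (β.compr₂ mk) x y = mk (altForm β x y) := by
    intro x y
    change mk _ - mk _ = mk _
    rw [← map_sub]
    rfl
  have hsym' : ∀ τ : Sy H V W, ∃ c : Z ≃+ Z, Induces β τ.1 c := fun τ => hsym τ.1 τ.2
  choose c hc using hsym'
  have hcomp : ∀ (τ τ' : Sy H V W) (c' : Z ≃+ Z), Induces β τ'.1 c' → ∀ z,
      c τ (c' z) = c ⟨τ'.1.trans τ.1, isSymmetry_trans τ.2 τ'.2⟩ z := by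
    intro τ τ' c' hc' z
    have : (c τ).toAddMonoidHom.comp c'.toAddMonoidHom =
        (c ⟨τ'.1.trans τ.1, isSymmetry_trans τ.2 τ'.2⟩).toAddMonoidHom := by
      apply hom_ext hgen
      intro v w
      rw [← altForm_VW β v w]
      change c τ (c' _) = c _ _
      rw [← hc', ← hc, ← hc]
      rfl
    exact congrArg (fun f : Z →+ Z => f z) this
  let K : AddSubgroup Z :=
    { carrier := {z | ∀ τ, mk (c τ z) = 0}
      zero_mem' := fun τ => by rw [map_zero, map_zero]
      add_mem' := fun {a b} ha hb τ => by rw [map_add, map_add, ha τ, hb τ, add_zero]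
      neg_mem' := fun {a} ha τ => by rw [map_neg, map_neg, ha τ, neg_zero] }
  have hKinv : ∀ τ' : (V × W) ≃+ (V × W), IsSymmetry H τ' → ∀ c' : Z ≃+ Z, Induces β τ' c' →
      ∀ z ∈ K, c' z ∈ K := by
    intro τ' hτ' c' hc' z hz τ
    rw [hcomp τ ⟨τ', hτ'⟩ c' hc']
    exact hz _
  have hK : K = ⊥ := by
    rcases hirr K hKinv with h | h
    · exact h
    · exfalso
      apply hS
      rw [eq_top_iff]
      rintro z -
      obtain ⟨z', rfl⟩ := (c ⟨AddEquiv.refl _, isSymmetry_refl⟩).surjective z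
      have : z' ∈ K := by rw [h]; trivial
      exact (QuotientAddGroup.eq_zero_iff _).1 (this ⟨AddEquiv.refl _, isSymmetry_refl⟩)
  have sig : ∀ τ : Sy H V W, ∃ σ : H →* H, (∀ (h : H) (x : V × W), τ.1 (h • x) = σ h • τ.1 x) ∧
      Bijective σ := fun τ => exists_sigma hfaith τ.2
  choose σ hσ hσb using sig
  have hcσ : ∀ (τ : Sy H V W) (h : H) (z : Z), c τ (h • z) = σ τ h • c τ z := by
    intro τ h z
    have : (c τ).toAddMonoidHom.comp (DistribMulAction.toAddMonoidHom Z h) =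
        (DistribMulAction.toAddMonoidHom Z (σ τ h)).comp (c τ).toAddMonoidHom := by
      apply hom_ext hgen
      intro v w
      change c τ (h • β v w) = σ τ h • c τ (β v w)
      rw [← altForm_VW β v w, ← altForm_smul β hβ, ← hc, ← hc, hσ, hσ, altForm_smul β hβ]
    exact congrArg (fun f : Z →+ Z => f z) this
  refine F.mem_of_family' (X := Heis β ⋊[heisAct β hβ] H) (ι := Sy H V W) hmem
    (fun τ => theta hβ hβ₁ τ.2.1 (c := mk.comp (c τ).toAddMonoidHom) ?_ (hσ τ) ?_) ?_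
    (MonoidHom.id _) surjective_id ?_
  · intro x y
    rw [halt, hc τ]
    rfl
  · intro h z
    change mk (c τ (h • z)) = _ • mk (c τ z)
    rw [hcσ]
    exact hact _ _
  · intro τ
    exact theta_surjective _ _ _ _ _ _ (hσb τ).2 (hmk.comp (c τ).surjective)
  · intro x hx
    have key := fun τ => theta_eq_one _ _ _ _ _ _ (hσb τ).1 (hx τ)
    obtain ⟨k1, k2, -, k4⟩ := key ⟨AddEquiv.refl _, isSymmetry_refl⟩
    have k3 : x.left.z ∈ K := fun τ => (key τ).2.2.1
    rw [hK, AddSubgroup.mem_bot] at k3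
    change x = 1
    ext
    · exact k1
    · exact k2
    · exact k3
    · exact k4

end Final

section Chief

variable {D : Type} [Group D]

/-- `L` is the largest normal subgroup of `D` properly contained in `M`. -/
def Chief (M L : Subgroup D) : Prop :=
  M.Normal ∧ L ≤ M ∧ L ≠ M ∧ L.Normal ∧ ∀ K : Subgroup D, K.Normal → K ≤ M → K ≠ M → K ≤ L

variable {U U' : Type} [AddCommGroup U] [AddCommGroup U']

theorem f_one {M : Subgroup D} {f : D → U} (hf : ∀ x ∈ M, ∀ y ∈ M, f (x * y) = f x + f y) :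
    f 1 = 0 := by
  have := hf 1 M.one_mem 1 M.one_mem
  rw [mul_one] at this
  simpa using this

theorem f_inv {M : Subgroup D} {f : D → U} (hf : ∀ x ∈ M, ∀ y ∈ M, f (x * y) = f x + f y)
    {x : D} (hx : x ∈ M) : f x⁻¹ = - f x := by
  have := hf x hx x⁻¹ (M.inv_mem hx)
  rw [mul_inv_cancel, f_one hf] at this
  exact (neg_eq_of_add_eq_zero_right this.symm).symm

theorem f_div {M : Subgroup D} {f : D → U} (hf : ∀ x ∈ M, ∀ y ∈ M, f (x * y) = f x + f y)
    {x y : D} (hx : x ∈ M) (hy : y ∈ M) : f (x * y⁻¹) = f x - f y := by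
  rw [hf x hx _ (M.inv_mem hy), f_inv hf hy, sub_eq_add_neg]

theorem chief_dichotomy {H : Type} [Group H] [DistribMulAction H U] (hU : IrredAction H U)
    {M L : Subgroup D} (hML : Chief M L) {f : D → U}
    (hf : ∀ x ∈ M, ∀ y ∈ M, f (x * y) = f x + f y) (h : D →* H) (hh : Surjective h)
    (hfc : ∀ d, ∀ x ∈ M, f (d * x * d⁻¹) = h d • f x) :
    (∀ x ∈ M, f x = 0) ∨ ((∀ u, ∃ x ∈ M, f x = u) ∧ ∀ x ∈ M, (f x = 0 ↔ x ∈ L)) := by
  obtain ⟨hM, hLM, hne, hL, hmax⟩ := hML
  -- image of a normal subgroup contained in `M`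
  have himg : ∀ R : Subgroup D, R.Normal → R ≤ M →
      (∀ x ∈ R, f x = 0) ∨ (∀ u, ∃ x ∈ R, f x = u) := by
    intro R hR hRM
    let T : AddSubgroup U :=
      { carrier := {u | ∃ x ∈ R, f x = u}
        zero_mem' := ⟨1, R.one_mem, f_one hf⟩
        add_mem' := by
          rintro _ _ ⟨x, hx, rfl⟩ ⟨y, hy, rfl⟩
          exact ⟨x * y, R.mul_mem hx hy, hf _ (hRM hx) _ (hRM hy)⟩
        neg_mem' := by
          rintro _ ⟨x, hx, rfl⟩
          exact ⟨x⁻¹, R.inv_mem hx, f_inv hf (hRM hx)⟩ }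
    have hT : ∀ g : H, ∀ u ∈ T, g • u ∈ T := by
      rintro g _ ⟨x, hx, rfl⟩
      obtain ⟨d, rfl⟩ := hh g
      exact ⟨d * x * d⁻¹, hR.conj_mem x hx d, hfc d x (hRM hx)⟩
    rcases hU.2 T hT with h1 | h1
    · left
      intro x hx
      have : f x ∈ T := ⟨x, hx, rfl⟩
      rw [h1] at this
      exact this
    · right
      intro u
      have : u ∈ T := by rw [h1]; trivial
      exact this
  let K : Subgroup D :=
    { carrier := {x | x ∈ M ∧ f x = 0}
      one_mem' := ⟨M.one_mem, f_one hf⟩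
      mul_mem' := by
        rintro x y ⟨hx, hx'⟩ ⟨hy, hy'⟩
        exact ⟨M.mul_mem hx hy, by rw [hf _ hx _ hy, hx', hy', add_zero]⟩
      inv_mem' := by
        rintro x ⟨hx, hx'⟩
        exact ⟨M.inv_mem hx, by rw [f_inv hf hx, hx', neg_zero]⟩ }
  have hK : K.Normal := ⟨by
    rintro x ⟨hx, hx'⟩ d
    exact ⟨hM.conj_mem x hx d, by rw [hfc d x hx, hx', smul_zero]⟩⟩
  have hKM : K ≤ M := fun x hx => hx.1
  rcases himg M hM le_rfl with h1 | h1
  · exact Or.inl h1
  · right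
    refine ⟨h1, ?_⟩
    have hKne : K ≠ M := by
      intro hEq
      obtain ⟨u, u', hu⟩ := hU.1
      have all0 : ∀ u : U, u = 0 := by
        intro u
        obtain ⟨x, hx, rfl⟩ := h1 u
        rw [← hEq] at hx
        exact hx.2
      exact hu (by rw [all0 u, all0 u'])
    have hKL : K ≤ L := hmax K hK hKM hKne
    rcases himg L hL hLM with h2 | h2
    · intro x hx
      exact ⟨fun h => hKL ⟨hx, h⟩, fun h => h2 x h⟩
    · exfalso
      apply hne
      apply le_antisymm hLM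
      intro x hx
      obtain ⟨l, hl, hl'⟩ := h2 (f x)
      have : x * l⁻¹ ∈ K := ⟨M.mul_mem hx (M.inv_mem (hLM hl)), by
        rw [f_div hf hx (hLM hl), hl', sub_self]⟩
      have h3 := L.mul_mem (hKL this) hl
      rwa [inv_mul_cancel_right] at h3

theorem trans_equiv {M : Subgroup D} {f : D → U} {g : D → U'}
    (hf : ∀ x ∈ M, ∀ y ∈ M, f (x * y) = f x + f y)
    (hg : ∀ x ∈ M, ∀ y ∈ M, g (x * y) = g x + g y)
    (hfs : ∀ u, ∃ x ∈ M, f x = u) (hgs : ∀ u, ∃ x ∈ M, g x = u)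
    (hker : ∀ x ∈ M, (f x = 0 ↔ g x = 0)) :
    ∃ e : U ≃+ U', ∀ x ∈ M, e (f x) = g x := by
  have heq : ∀ x ∈ M, ∀ y ∈ M, (f x = f y ↔ g x = g y) := by
    intro x hx y hy
    have := hker (x * y⁻¹) (M.mul_mem hx (M.inv_mem hy))
    rw [f_div hf hx hy, f_div hg hx hy, sub_eq_zero, sub_eq_zero] at this
    exact this
  choose s hsM hs using hfs
  have key : ∀ x ∈ M, g (s (f x)) = g x := by
    intro x hx
    exact (heq _ (hsM _) _ hx).1 (hs _)
  let e₀ : U →+ U' := AddMonoidHom.mk' (fun u => g (s u)) (by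
    intro u u'
    rw [← hg _ (hsM u) _ (hsM u')]
    apply (heq _ (hsM _) _ (M.mul_mem (hsM u) (hsM u'))).1
    rw [hs, hf _ (hsM u) _ (hsM u'), hs, hs])
  have hinj : Injective e₀ := by
    rw [injective_iff_map_eq_zero]
    intro u hu
    have : f (s u) = 0 := (hker _ (hsM u)).2 hu
    rwa [hs] at this
  have hsurj : Surjective e₀ := by
    intro u
    obtain ⟨x, hx, rfl⟩ := hgs u
    exact ⟨f x, key x hx⟩
  exact ⟨AddEquiv.ofBijective e₀ ⟨hinj, hsurj⟩, key⟩

end Chief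

end Pool.Agent.Helper36.Form
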