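import Pool.Agent.Helper36.Form.B3a

/-!
# Type III: minimality, the main construction
-/

namespace Pool.Agent.Helper36.Form

open Pool.Agent.Helper38.Form Function

section Setup

variable {H V W Z : Type} [Group H] [AddCommGroup V] [AddCommGroup W] [AddCommGroup Z]
  [DistribMulAction H V] [DistribMulAction H W] [DistribMulAction H Z]
  {β : V →+ W →+ Z} {hβ : ∀ (h : H) (v : V) (w : W), β (h • v) (h • w) = h • β v w}
  {D ι : Type} [Group D] (π : ι → D →* Heis β ⋊[heisAct β hβ] H)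

/-- `V`-coordinate -/
def vv (i : ι) (d : D) : V := (π i d).left.v
/-- `W`-coordinate -/
def ww (i : ι) (d : D) : W := (π i d).left.w
/-- `H`-coordinate -/
def hh (i : ι) : D →* H := SemidirectProduct.rightHom.comp (π i)

theorem hh_apply (i : ι) (d : D) : hh π i d = (π i d).right := rfl

/-- the normal Sylow subgroup -/
def PP : Subgroup D where
  carrier := {d | ∀ i, hh π i d = 1}
  one_mem' := fun i => map_one _
  mul_mem' := fun {a b} ha hb i => by rw [map_mul, ha i, hb i, one_mul]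
  inv_mem' := fun {a} ha i => by rw [map_inv, ha i, inv_one]

theorem mem_PP {d : D} : d ∈ PP π ↔ ∀ i, hh π i d = 1 := Iff.rfl

theorem PP_normal : (PP π).Normal := ⟨fun x hx d i => by
  rw [map_mul, map_mul, hx i, map_inv, mul_one, mul_inv_cancel]⟩

/-- central elements -/
def zc (hβ : ∀ (h : H) (v : V) (w : W), β (h • v) (h • w) = h • β v w) (z : Z) :
    Heis β ⋊[heisAct β hβ] H := ⟨⟨0, 0, z⟩, 1⟩

theorem zc_mul (a b : Z) : zc hβ a * zc hβ b = zc hβ (a + b) := by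
  ext
  · change (0 : V) + (1 : H) • (0 : V) = 0
    simp
  · change (0 : W) + (1 : H) • (0 : W) = 0
    simp
  · change a + (1 : H) • b + β 0 ((1 : H) • (0 : W)) = a + b
    simp
  · change (1 : H) * 1 = 1
    simp

theorem zc_zero : zc hβ (0 : Z) = 1 := rfl

theorem zc_inv (a : Z) : (zc hβ a)⁻¹ = zc hβ (-a) := by
  rw [inv_eq_iff_mul_eq_one, zc_mul, add_neg_cancel, zc_zero]

theorem zc_conj (d : Heis β ⋊[heisAct β hβ] H) (a : Z) :
    d * zc hβ a * d⁻¹ = zc hβ (d.right • a) := by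
  have hx : (zc hβ a).right = 1 := rfl
  ext
  · rw [sd_conj_v _ _ hx]
    change d.right • (0 : V) = 0
    simp
  · rw [sd_conj_w _ _ hx]
    change d.right • (0 : W) = 0
    simp
  · rw [sd_conj_z _ _ hx]
    change d.right • a + (β d.left.v (d.right • (0 : W)) - β (d.right • (0 : V)) d.left.w) =
      d.right • a
    simp
  · exact sd_conj_right _ _ hx

theorem zc_injective {a b : Z} (h : zc hβ a = zc hβ b) : a = b :=
  congrArg (fun x => x.left.z) h

theorem vv_mul (i : ι) {x : D} (hx : x ∈ PP π) (y : D) :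
    vv π i (x * y) = vv π i x + vv π i y := by
  unfold vv
  rw [map_mul, sd_mul_v _ _ (hx i)]

theorem ww_mul (i : ι) {x : D} (hx : x ∈ PP π) (y : D) :
    ww π i (x * y) = ww π i x + ww π i y := by
  unfold ww
  rw [map_mul, sd_mul_w _ _ (hx i)]

theorem vv_conj (i : ι) (d : D) {x : D} (hx : x ∈ PP π) :
    vv π i (d * x * d⁻¹) = hh π i d • vv π i x := by
  unfold vv
  rw [map_mul, map_mul, map_inv, sd_conj_v _ _ (hx i)]
  rfl

theorem ww_conj (i : ι) (d : D) {x : D} (hx : x ∈ PP π) :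
    ww π i (d * x * d⁻¹) = hh π i d • ww π i x := by
  unfold ww
  rw [map_mul, map_mul, map_inv, sd_conj_w _ _ (hx i)]
  rfl

theorem comm_coord (i : ι) {x y : D} (hx : x ∈ PP π) (hy : y ∈ PP π) :
    π i (x * y * x⁻¹ * y⁻¹) =
      zc hβ (altForm β (vv π i x, ww π i x) (vv π i y, ww π i y)) := by
  rw [map_mul, map_mul, map_mul, map_inv, map_inv, sd_comm _ _ (hx i) (hy i)]
  rfl

variable {π}

theorem eq_of_coord (hinj : ∀ d, (∀ i, π i d = 1) → d = 1) {x y : D}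
    (h : ∀ i, π i x = π i y) : x = y := by
  rw [← mul_inv_eq_one]
  apply hinj
  intro i
  rw [map_mul, map_inv, h i, mul_inv_cancel]

theorem cm_mul (hinj : ∀ d, (∀ i, π i d = 1) → d = 1) {x x' y : D} (hx : x ∈ PP π)
    (hx' : x' ∈ PP π) (hy : y ∈ PP π) :
    (x * x') * y * (x * x')⁻¹ * y⁻¹ = (x * y * x⁻¹ * y⁻¹) * (x' * y * x'⁻¹ * y⁻¹) := by
  apply eq_of_coord hinj
  intro i
  rw [comm_coord π i ((PP π).mul_mem hx hx') hy, map_mul, comm_coord π i hx hy,
    comm_coord π i hx' hy, zc_mul, ← altForm_add_left, vv_mul π i hx, ww_mul π i hx]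
  rfl

end Setup

section Main

variable {H V W Z : Type} [Group H] [AddCommGroup V] [AddCommGroup W] [AddCommGroup Z]
  [DistribMulAction H V] [DistribMulAction H W] [DistribMulAction H Z]
  [Finite H] [Finite V] [Finite W] [Finite Z]
  {β : V →+ W →+ Z} {hβ : ∀ (h : H) (v : V) (w : W), β (h • v) (h • w) = h • β v w}
  {D ι : Type} [Group D] [Finite D] {π : ι → D →* Heis β ⋊[heisAct β hβ] H}
  {G : Type} [Group G] [Finite G]

theorem main_pair {p : ℕ} (hIII : IsTypeIII p (H := H) β) (F : Formation) (hF : F.Mem G)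
    (ψ : D →* G) (hψ : Surjective ψ) (hπ : ∀ i, Surjective (π i))
    (hinj : ∀ d, (∀ i, π i d = 1) → d = 1)
    (M₁ M₂ L₁ L₂ : Subgroup D) (h₁ : M₁ ≤ PP π) (h₂ : M₂ ≤ PP π)
    (c₁ : Chief M₁ L₁) (c₂ : Chief M₂ L₂)
    (l₁ : ∀ x ∈ M₁, (x ∈ L₁ ↔ ∀ y ∈ M₂, ψ (x * y * x⁻¹ * y⁻¹) = 1))
    (l₂ : ∀ y ∈ M₂, (y ∈ L₂ ↔ ∀ x ∈ M₁, ψ (x * y * x⁻¹ * y⁻¹) = 1))
    (i₀ : ι) (hv : ∃ x ∈ M₁, vv π i₀ x ≠ 0) (hw : ∃ y ∈ M₂, ww π i₀ y ≠ 0) :
    F.Mem (Heis β ⋊[heisAct β hβ] H) := by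
  have hIII' := hIII
  obtain ⟨-, -, -, -, -, hVirr, hWirr, hfaith, -, hgen, hsym, -⟩ := hIII'
  have hhs : ∀ i, Surjective (hh π i) := fun i =>
    SemidirectProduct.rightHom_surjective.comp (hπ i)
  have n₁ : M₁.Normal := c₁.1
  have n₂ : M₂.Normal := c₂.1
  have vmul₁ : ∀ i, ∀ x ∈ M₁, ∀ y ∈ M₁, vv π i (x * y) = vv π i x + vv π i y :=
    fun i x hx y _ => vv_mul π i (h₁ hx) y
  have wmul₁ : ∀ i, ∀ x ∈ M₁, ∀ y ∈ M₁, ww π i (x * y) = ww π i x + ww π i y :=
    fun i x hx y _ => ww_mul π i (h₁ hx) y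
  have vmul₂ : ∀ i, ∀ x ∈ M₂, ∀ y ∈ M₂, vv π i (x * y) = vv π i x + vv π i y :=
    fun i x hx y _ => vv_mul π i (h₂ hx) y
  have wmul₂ : ∀ i, ∀ x ∈ M₂, ∀ y ∈ M₂, ww π i (x * y) = ww π i x + ww π i y :=
    fun i x hx y _ => ww_mul π i (h₂ hx) y
  have dv1 := fun i => chief_dichotomy hVirr c₁ (vmul₁ i) (hh π i) (hhs i)
    (fun d x hx => vv_conj π i d (h₁ hx))
  have dw1 := fun i => chief_dichotomy hWirr c₁ (wmul₁ i) (hh π i) (hhs i)
    (fun d x hx => ww_conj π i d (h₁ hx))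
  have dv2 := fun i => chief_dichotomy hVirr c₂ (vmul₂ i) (hh π i) (hhs i)
    (fun d x hx => vv_conj π i d (h₂ hx))
  have dw2 := fun i => chief_dichotomy hWirr c₂ (wmul₂ i) (hh π i) (hhs i)
    (fun d x hx => ww_conj π i d (h₂ hx))
  obtain ⟨sv, kv⟩ : (∀ u, ∃ x ∈ M₁, vv π i₀ x = u) ∧ ∀ x ∈ M₁, (vv π i₀ x = 0 ↔ x ∈ L₁) := by
    rcases dv1 i₀ with h | h
    · obtain ⟨x, hx, hx'⟩ := hv
      exact absurd (h x hx) hx'
    · exact h
  obtain ⟨sw, kw⟩ : (∀ u, ∃ x ∈ M₂, ww π i₀ x = u) ∧ ∀ x ∈ M₂, (ww π i₀ x = 0 ↔ x ∈ L₂) := by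
    rcases dw2 i₀ with h | h
    · obtain ⟨x, hx, hx'⟩ := hw
      exact absurd (h x hx) hx'
    · exact h
  -- the straight part
  have hA : ∀ i, ∃ c : Z →+ Z, ∀ x ∈ M₁, ∀ y ∈ M₂,
      β (vv π i x) (ww π i y) = c (β (vv π i₀ x) (ww π i₀ y)) := by
    intro i
    rcases dv1 i with h | ⟨s1, k1⟩
    · exact ⟨0, fun x hx y _ => by rw [h x hx]; simp⟩
    rcases dw2 i with h | ⟨s2, k2⟩
    · exact ⟨0, fun x _ y hy => by rw [h y hy]; simp⟩
    obtain ⟨e1, he1⟩ := trans_equiv (vmul₁ i₀) (vmul₁ i) sv s1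
      (fun x hx => (kv x hx).trans (k1 x hx).symm)
    obtain ⟨e2, he2⟩ := trans_equiv (wmul₂ i₀) (wmul₂ i) sw s2
      (fun x hx => (kw x hx).trans (k2 x hx).symm)
    have hs : IsSymmetry H (AddEquiv.prodCongr e1 e2) := by
      refine ⟨Or.inl ⟨fun v => ?_, fun w => ?_⟩, fun g => ?_⟩
      · change e2 0 = 0
        exact map_zero _
      · change e1 0 = 0
        exact map_zero _
      · obtain ⟨d, rfl⟩ := hhs i₀ g
        refine ⟨hh π i d, fun x => ?_⟩
        obtain ⟨a, ha, hax⟩ := sv x.1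
        obtain ⟨b, hb, hbx⟩ := sw x.2
        apply Prod.ext
        · change e1 (hh π i₀ d • x.1) = hh π i d • e1 x.1
          rw [← hax, ← vv_conj π i₀ d (h₁ ha), he1 _ ha, he1 _ (n₁.conj_mem a ha d),
            vv_conj π i d (h₁ ha)]
        · change e2 (hh π i₀ d • x.2) = hh π i d • e2 x.2
          rw [← hbx, ← ww_conj π i₀ d (h₂ hb), he2 _ hb, he2 _ (n₂.conj_mem b hb d),
            ww_conj π i d (h₂ hb)]
    obtain ⟨c, hc⟩ := hsym _ hs
    refine ⟨c.toAddMonoidHom, fun x hx y hy => ?_⟩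
    have := hc (vv π i₀ x, 0) (0, ww π i₀ y)
    rw [altForm_VW] at this
    change _ = c _
    rw [← this]
    change _ = altForm β (e1 (vv π i₀ x), e2 0) (e1 0, e2 (ww π i₀ y))
    rw [map_zero, map_zero, altForm_VW, he1 x hx, he2 y hy]
  -- the swapped part
  have hB : ∀ i, ∃ c : Z →+ Z, ∀ x ∈ M₁, ∀ y ∈ M₂,
      - β (vv π i y) (ww π i x) = c (β (vv π i₀ x) (ww π i₀ y)) := by
    intro i
    rcases dw1 i with h | ⟨s1, k1⟩
    · exact ⟨0, fun x hx y _ => by rw [h x hx]; simp⟩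
    rcases dv2 i with h | ⟨s2, k2⟩
    · exact ⟨0, fun x _ y hy => by rw [h y hy]; simp⟩
    obtain ⟨e1, he1⟩ := trans_equiv (vmul₁ i₀) (wmul₁ i) sv s1
      (fun x hx => (kv x hx).trans (k1 x hx).symm)
    obtain ⟨e2, he2⟩ := trans_equiv (wmul₂ i₀) (vmul₂ i) sw s2
      (fun x hx => (kw x hx).trans (k2 x hx).symm)
    have hs : IsSymmetry H ((AddEquiv.prodCongr e1 e2).trans AddEquiv.prodComm) := by
      refine ⟨Or.inr ⟨fun v => ?_, fun w => ?_⟩, fun g => ?_⟩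
      · change e2 0 = 0
        exact map_zero _
      · change e1 0 = 0
        exact map_zero _
      · obtain ⟨d, rfl⟩ := hhs i₀ g
        refine ⟨hh π i d, fun x => ?_⟩
        obtain ⟨a, ha, hax⟩ := sv x.1
        obtain ⟨b, hb, hbx⟩ := sw x.2
        apply Prod.ext
        · change e2 (hh π i₀ d • x.2) = hh π i d • e2 x.2
          rw [← hbx, ← ww_conj π i₀ d (h₂ hb), he2 _ hb, he2 _ (n₂.conj_mem b hb d),
            vv_conj π i d (h₂ hb)]
        · change e1 (hh π i₀ d • x.1) = hh π i d • e1 x.1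
          rw [← hax, ← vv_conj π i₀ d (h₁ ha), he1 _ ha, he1 _ (n₁.conj_mem a ha d),
            ww_conj π i d (h₁ ha)]
    obtain ⟨c, hc⟩ := hsym _ hs
    refine ⟨c.toAddMonoidHom, fun x hx y hy => ?_⟩
    have := hc (vv π i₀ x, 0) (0, ww π i₀ y)
    rw [altForm_VW] at this
    change _ = c _
    rw [← this]
    change _ = altForm β (e2 0, e1 (vv π i₀ x)) (e2 (ww π i₀ y), e1 0)
    rw [map_zero, map_zero, altForm_swap, altForm_VW, he1 x hx, he2 y hy]
  choose cA hcA using hA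
  choose cB hcB using hB
  let g : ι → Z →+ Z := fun i => cA i + cB i
  have hg : ∀ i, ∀ x ∈ M₁, ∀ y ∈ M₂,
      altForm β (vv π i x, ww π i x) (vv π i y, ww π i y) =
        g i (β (vv π i₀ x) (ww π i₀ y)) := by
    intro i x hx y hy
    change β (vv π i x) (ww π i y) - β (vv π i y) (ww π i x) =
      cA i (β (vv π i₀ x) (ww π i₀ y)) + cB i (β (vv π i₀ x) (ww π i₀ y))
    rw [← hcA i x hx y hy, ← hcB i x hx y hy, sub_eq_add_neg]
  have hcm : ∀ i, ∀ x ∈ M₁, ∀ y ∈ M₂, π i (x * y * x⁻¹ * y⁻¹) =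
      zc hβ (g i (β (vv π i₀ x) (ww π i₀ y))) := by
    intro i x hx y hy
    rw [comm_coord π i (h₁ hx) (h₂ hy), hg i x hx y hy]
  -- equivariance of `g`
  have hgeq : ∀ i d z, g i (hh π i₀ d • z) = hh π i d • g i z := by
    intro i d z
    have : (g i).comp (DistribMulAction.toAddMonoidHom Z (hh π i₀ d)) =
        (DistribMulAction.toAddMonoidHom Z (hh π i d)).comp (g i) := by
      apply hom_ext hgen
      intro v w
      obtain ⟨x, hx, rfl⟩ := sv v
      obtain ⟨y, hy, rfl⟩ := sw w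
      change g i (hh π i₀ d • β (vv π i₀ x) (ww π i₀ y)) =
        hh π i d • g i (β (vv π i₀ x) (ww π i₀ y))
      rw [← hβ, ← vv_conj π i₀ d (h₁ hx), ← ww_conj π i₀ d (h₂ hy),
        ← hg i _ (n₁.conj_mem x hx d) _ (n₂.conj_mem y hy d), ← hg i x hx y hy,
        ← altForm_smul β hβ, vv_conj π i d (h₁ hx), vv_conj π i d (h₂ hy),
        ww_conj π i d (h₁ hx), ww_conj π i d (h₂ hy)]
      rfl
    exact congrArg (fun f : Z →+ Z => f z) this
  -- the elements `n z`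
  have hn : ∀ z, ∃ d : D, ∀ i, π i d = zc hβ (g i z) := by
    intro z
    have hz : z ∈ AddSubgroup.closure {z : Z | ∃ v w, z = β v w} := by rw [hgen]; trivial
    induction hz using AddSubgroup.closure_induction with
    | mem z hz =>
      obtain ⟨v, w, rfl⟩ := hz
      obtain ⟨x, hx, rfl⟩ := sv v
      obtain ⟨y, hy, rfl⟩ := sw w
      exact ⟨x * y * x⁻¹ * y⁻¹, fun i => hcm i x hx y hy⟩
    | zero => exact ⟨1, fun i => by rw [map_one, map_zero, zc_zero]⟩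
    | add a b _ _ ha hb =>
      obtain ⟨x, hx⟩ := ha
      obtain ⟨y, hy⟩ := hb
      exact ⟨x * y, fun i => by rw [map_mul, hx, hy, zc_mul, map_add]⟩
    | neg a _ ha =>
      obtain ⟨x, hx⟩ := ha
      exact ⟨x⁻¹, fun i => by rw [map_inv, hx, zc_inv, map_neg]⟩
  choose n hn using hn
  have n_add : ∀ a b, n (a + b) = n a * n b := by
    intro a b
    apply eq_of_coord hinj
    intro i
    rw [hn, map_mul, hn, hn, zc_mul, map_add]
  have n_zero : n 0 = 1 := by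
    apply eq_of_coord hinj
    intro i
    rw [hn, map_zero, zc_zero, map_one]
  have n_neg : ∀ a, n (-a) = (n a)⁻¹ := by
    intro a
    apply eq_of_coord hinj
    intro i
    rw [hn, map_inv, hn, zc_inv, map_neg]
  have n_conj : ∀ d z, d * n z * d⁻¹ = n (hh π i₀ d • z) := by
    intro d z
    apply eq_of_coord hinj
    intro i
    rw [hn, map_mul, map_mul, hn, map_inv, zc_conj, hgeq]
    rfl
  have n_comm : ∀ x ∈ M₁, ∀ y ∈ M₂,
      x * y * x⁻¹ * y⁻¹ = n (β (vv π i₀ x) (ww π i₀ y)) := by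
    intro x hx y hy
    apply eq_of_coord hinj
    intro i
    rw [hcm i x hx y hy, hn]
  let N : Subgroup D :=
    { carrier := {d | ∃ z, n z = d}
      one_mem' := ⟨0, n_zero⟩
      mul_mem' := by
        rintro _ _ ⟨a, rfl⟩ ⟨b, rfl⟩
        exact ⟨a + b, n_add a b⟩
      inv_mem' := by
        rintro _ ⟨a, rfl⟩
        exact ⟨-a, n_neg a⟩ }
  have nN : N.Normal := ⟨by
    rintro _ ⟨a, rfl⟩ d
    exact ⟨_, (n_conj d a).symm⟩⟩
  let S : AddSubgroup Z :=
    { carrier := {z | ψ (n z) = 1}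
      zero_mem' := by
        change ψ (n 0) = 1
        rw [n_zero, map_one]
      add_mem' := by
        intro a b ha hb
        change ψ (n (a + b)) = 1
        rw [n_add, map_mul]
        have ha : ψ (n a) = 1 := ha
        have hb : ψ (n b) = 1 := hb
        rw [ha, hb, one_mul]
      neg_mem' := by
        intro a ha
        change ψ (n (-a)) = 1
        have ha : ψ (n a) = 1 := ha
        rw [n_neg, map_inv, ha, inv_one] }
  have hmemS : ∀ z, z ∈ S ↔ ψ (n z) = 1 := fun z => Iff.rfl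
  have hStop : S ≠ ⊤ := by
    intro htop
    apply c₁.2.2.1
    apply le_antisymm c₁.2.1
    intro x hx
    rw [l₁ x hx]
    intro y hy
    rw [n_comm x hx y hy, ← hmemS, htop]
    trivial
  have hSi : ∀ (h : H), ∀ z ∈ S, h • z ∈ S := by
    intro h z hz
    obtain ⟨d, rfl⟩ := hhs i₀ h
    rw [hmemS] at hz ⊢
    rw [← n_conj, map_mul, map_mul, hz, map_inv, mul_one, mul_inv_cancel]
  letI actQ : DistribMulAction H (Z ⧸ S) := quotAction S hSi
  have hact : ∀ (h : H) (z : Z),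
      QuotientAddGroup.mk' S (h • z) = h • QuotientAddGroup.mk' S z := fun h z => rfl
  have hβ₁ : ∀ (h : H) (v : V) (w : W), (β.compr₂ (QuotientAddGroup.mk' S)) (h • v) (h • w) =
      h • (β.compr₂ (QuotientAddGroup.mk' S)) v w := by
    intro h v w
    change QuotientAddGroup.mk' S (β (h • v) (h • w)) = h • QuotientAddGroup.mk' S (β v w)
    rw [hβ, hact]
  apply final_step F p β hβ hIII S hStop hact hβ₁
  classical
  let ζ : D → Z ⧸ S := fun d => if h : ∃ z, n z = d then QuotientAddGroup.mk' S h.choose else 0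
  have hζ : ∀ z, ζ (n z) = QuotientAddGroup.mk' S z := by
    intro z
    have h : ∃ z', n z' = n z := ⟨z, rfl⟩
    have hdef : ζ (n z) = QuotientAddGroup.mk' S h.choose := by
      simp only [ζ]
      rw [dif_pos h]
    rw [hdef]
    apply (QuotientAddGroup.eq (s := S)).2
    rw [hmemS, n_add, n_neg, h.choose_spec, inv_mul_cancel, map_one]
  refine heis_mem F hF ψ hψ M₁ M₂ N (β.compr₂ (QuotientAddGroup.mk' S)) hβ₁ (hh π i₀) (hhs i₀)
    (vv π i₀) (ww π i₀) ζ (vmul₁ i₀) (wmul₂ i₀) ?_ (fun d x hx => vv_conj π i₀ d (h₁ hx))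
    (fun d x hx => ww_conj π i₀ d (h₂ hx)) ?_ sv sw ?_ (fun x hx => h₁ hx i₀)
    (fun x hx => h₂ hx i₀) (fun x hx y hy => ⟨_, (n_comm x hx y hy).symm⟩) ?_ ?_ ?_ ?_ ?_
  · rintro _ ⟨a, rfl⟩ _ ⟨b, rfl⟩
    rw [← n_add, hζ, hζ, hζ, map_add]
  · rintro d _ ⟨a, rfl⟩
    rw [n_conj, hζ, hζ, hact]
  · intro a
    obtain ⟨z, rfl⟩ := QuotientAddGroup.mk'_surjective S a
    exact ⟨n z, ⟨z, rfl⟩, hζ z⟩
  · intro x hx y hy
    rw [n_comm x hx y hy, hζ]
    rfl
  · intro x hx hψx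
    rw [kv x hx, l₁ x hx]
    intro y _
    simp [hψx]
  · intro y hy hψy
    rw [kw y hy, l₂ y hy]
    intro x _
    simp [hψy]
  · rintro _ ⟨z, rfl⟩ hz
    rw [hζ]
    exact (QuotientAddGroup.eq_zero_iff z).2 hz
  · intro d hd
    apply hfaith
    · intro v
      obtain ⟨x, hx, rfl⟩ := sv v
      have hm : d * x * d⁻¹ ∈ M₁ := n₁.conj_mem x hx d
      have h3 : d * x * d⁻¹ * x⁻¹ ∈ M₁ := M₁.mul_mem hm (M₁.inv_mem hx)
      have h4 : vv π i₀ (d * x * d⁻¹ * x⁻¹) = 0 := by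
        rw [kv _ h3, l₁ _ h3]
        intro y _
        simp [hd]
      rw [f_div (vmul₁ i₀) hm hx, vv_conj π i₀ d (h₁ hx), sub_eq_zero] at h4
      exact h4
    · intro w
      obtain ⟨x, hx, rfl⟩ := sw w
      have hm : d * x * d⁻¹ ∈ M₂ := n₂.conj_mem x hx d
      have h3 : d * x * d⁻¹ * x⁻¹ ∈ M₂ := M₂.mul_mem hm (M₂.inv_mem hx)
      have h4 : ww π i₀ (d * x * d⁻¹ * x⁻¹) = 0 := by
        rw [kw _ h3, l₂ _ h3]
        intro y _
        simp [hd]
      rw [f_div (wmul₂ i₀) hm hx, ww_conj π i₀ d (h₂ hx), sub_eq_zero] at h4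
      exact h4

end Main

end Pool.Agent.Helper36.Form
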