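import Pool.Agent.Helper36.Form.B3b

/-!
# Type III: minimality, the theorem
-/

namespace Pool.Agent.Helper36.Form

open Pool.Agent.Helper38.Form Function

section Elts

variable {H V W Z : Type} [Group H] [AddCommGroup V] [AddCommGroup W] [AddCommGroup Z]
  [DistribMulAction H V] [DistribMulAction H W] [DistribMulAction H Z]
  {β : V →+ W →+ Z} {hβ : ∀ (h : H) (v : V) (w : W), β (h • v) (h • w) = h • β v w}
  {D ι : Type} [Group D] {π : ι → D →* Heis β ⋊[heisAct β hβ] H}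

theorem heis_pow_v (a : Heis β) (n : ℕ) : (a ^ n).v = n • a.v := by
  induction n with
  | zero => simp
  | succ n ih => rw [pow_succ, Heis.mul_v, ih, succ_nsmul]

theorem heis_pow_w (a : Heis β) (n : ℕ) : (a ^ n).w = n • a.w := by
  induction n with
  | zero => simp
  | succ n ih => rw [pow_succ, Heis.mul_w, ih, succ_nsmul]

theorem heis_pow_z (a : Heis β) (ha : a.w = 0) (n : ℕ) : (a ^ n).z = n • a.z := by
  induction n with
  | zero => simp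
  | succ n ih => rw [pow_succ, Heis.mul_z, ih, ha, map_zero, add_zero, succ_nsmul]

theorem heis_pow_eq_one {p : ℕ} (hVp : ∀ v : V, p • v = 0) (hWp : ∀ w : W, p • w = 0)
    (hZp : ∀ z : Z, p • z = 0) (a : Heis β) : a ^ (p * p) = 1 := by
  rw [pow_mul]
  have hv : (a ^ p).v = 0 := by rw [heis_pow_v, hVp]
  have hw : (a ^ p).w = 0 := by rw [heis_pow_w, hWp]
  ext
  · rw [heis_pow_v, hVp]; rfl
  · rw [heis_pow_w, hWp]; rfl
  · rw [heis_pow_z _ hw, hZp]; rfl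

theorem p_elt {p : ℕ} (hVp : ∀ v : V, p • v = 0) (hWp : ∀ w : W, p • w = 0)
    (hZp : ∀ z : Z, p • z = 0) (hinj : ∀ d, (∀ i, π i d = 1) → d = 1)
    {d : D} (hd : d ∈ PP π) : d ^ (p * p) = 1 := by
  apply hinj
  intro i
  have h1 : π i d = SemidirectProduct.inl (π i d).left := by
    have h2 := SemidirectProduct.inl_left_mul_inr_right (π i d)
    have h3 : (π i d).right = 1 := hd i
    rw [h3, map_one, mul_one] at h2
    exact h2.symm
  rw [map_pow, h1, ← map_pow, heis_pow_eq_one hVp hWp hZp, map_one]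

end Elts

section NonAb

variable {H V W Z : Type} [Group H] [AddCommGroup V] [AddCommGroup W] [AddCommGroup Z]
  [DistribMulAction H V] [DistribMulAction H W] [DistribMulAction H Z]
  [Finite H] [Finite V] [Finite W] [Finite Z]
  {β : V →+ W →+ Z} {hβ : ∀ (h : H) (v : V) (w : W), β (h • v) (h • w) = h • β v w}
  {D ι : Type} [Group D] [Finite D] {π : ι → D →* Heis β ⋊[heisAct β hβ] H}
  {G : Type} [Group G] [Finite G]

theorem exists_noncomm {p : ℕ} (hIII : IsTypeIII p (H := H) β)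
    (ψ : D →* G) (hψ : Surjective ψ)
    (hinj : ∀ d, (∀ i, π i d = 1) → d = 1) (hG : ¬ IsAGroup G) :
    ∃ x ∈ PP π, ∃ y ∈ PP π, ψ (x * y * x⁻¹ * y⁻¹) ≠ 1 := by
  by_contra hcon
  push Not at hcon
  apply hG
  obtain ⟨hp, hHA, hpH, hVp, hWp, -, -, -, -, hgen, -, -⟩ := hIII
  have hZp : ∀ z : Z, p • z = 0 := by
    intro z
    have : (p • AddMonoidHom.id Z) = (0 : Z →+ Z) := by
      apply hom_ext hgen
      intro v w
      change p • β v w = 0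
      rw [← AddMonoidHom.nsmul_apply, ← map_nsmul, hVp, map_zero, AddMonoidHom.zero_apply]
    exact congrArg (fun f : Z →+ Z => f z) this
  have nP : (PP π).Normal := PP_normal π
  let R : Subgroup G := (PP π).map ψ
  have nR : R.Normal := nP.map ψ hψ
  have hDP : IsAGroup (D ⧸ PP π) := by
    apply IsAGroup.of_family (G := fun _ : ι => H)
      (fun i => QuotientGroup.lift (PP π) (hh π i) (fun x hx => hx i)) _ (fun _ => hHA)
    intro x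
    induction x using QuotientGroup.induction_on with
    | H d =>
      intro h
      exact (QuotientGroup.eq_one_iff d).2 (fun i => h i)
  have hGR : IsAGroup (G ⧸ R) := by
    apply hDP.of_surjective (QuotientGroup.map (PP π) R ψ (Subgroup.le_comap_map ψ _))
    intro y
    obtain ⟨g, rfl⟩ := QuotientGroup.mk_surjective y
    obtain ⟨d, rfl⟩ := hψ g
    exact ⟨QuotientGroup.mk d, rfl⟩
  rw [isAGroup_iff]
  intro r hr Q hQ _ x hx y hy
  by_cases hrp : r = p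
  · subst hrp
    have hQR : ∀ g ∈ Q, g ∈ R := by
      intro g hg
      obtain ⟨d, rfl⟩ := hψ g
      obtain ⟨k, hk⟩ := hQ ⟨_, hg⟩
      have hk : (ψ d) ^ r ^ k = 1 := congrArg Subtype.val hk
      have hm : (ψ d) ^ Nat.card H ∈ R := by
        rw [← map_pow]
        refine ⟨_, ?_, rfl⟩
        intro i
        rw [map_pow, pow_card_eq_one']
      have hcop : Nat.Coprime (Nat.card H) (r ^ k) :=
        Nat.Coprime.pow_right k ((Nat.Prime.coprime_iff_not_dvd hr).2 hpH).symm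
      have hb := Nat.gcd_eq_gcd_ab (Nat.card H) (r ^ k)
      rw [hcop] at hb
      have e : ψ d = ((ψ d) ^ Nat.card H) ^ (Nat.gcdA (Nat.card H) (r ^ k)) := by
        calc ψ d = (ψ d) ^ ((1 : ℕ) : ℤ) := by simp
          _ = _ := by
            rw [hb, zpow_add, zpow_mul, zpow_mul, zpow_natCast, zpow_natCast, hk, one_zpow,
              mul_one]
      rw [e]
      exact R.zpow_mem hm _
    obtain ⟨a, ha, rfl⟩ := hQR x hx
    obtain ⟨b, hb, rfl⟩ := hQR y hy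
    have := hcon a ha b hb
    rw [map_mul, map_mul, map_mul, map_inv, map_inv, mul_inv_eq_one, mul_inv_eq_iff_eq_mul] at this
    exact this
  · have hc : x * y * x⁻¹ * y⁻¹ ∈ R := by
      have h1 := hGR.ab hr (hQ.map (QuotientGroup.mk' R))
        (Subgroup.mem_map_of_mem (QuotientGroup.mk' R) hx)
        (Subgroup.mem_map_of_mem (QuotientGroup.mk' R) hy)
      rw [← QuotientGroup.eq_one_iff]
      change QuotientGroup.mk' R (x * y * x⁻¹ * y⁻¹) = 1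
      rw [map_mul, map_mul, map_mul, map_inv, map_inv, h1]
      group
    have hcQ : x * y * x⁻¹ * y⁻¹ ∈ Q :=
      Q.mul_mem (Q.mul_mem (Q.mul_mem hx hy) (Q.inv_mem hx)) (Q.inv_mem hy)
    obtain ⟨k, hk⟩ := hQ ⟨_, hcQ⟩
    have hk : (x * y * x⁻¹ * y⁻¹) ^ r ^ k = 1 := congrArg Subtype.val hk
    obtain ⟨c, hcP, hcc⟩ := hc
    have hk' : (x * y * x⁻¹ * y⁻¹) ^ (p * p) = 1 := by
      rw [← hcc, ← map_pow, p_elt hVp hWp hZp hinj hcP, map_one]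
    have hcop : Nat.Coprime (r ^ k) (p * p) := by
      apply Nat.Coprime.pow_left
      have : Nat.Coprime r p := (Nat.coprime_primes hr hp).2 hrp
      exact Nat.Coprime.mul_right this this
    have h1 : orderOf (x * y * x⁻¹ * y⁻¹) ∣ 1 := by
      rw [← hcop]
      exact Nat.dvd_gcd (orderOf_dvd_of_pow_eq_one hk) (orderOf_dvd_of_pow_eq_one hk')
    have h2 : x * y * x⁻¹ * y⁻¹ = 1 := orderOf_eq_one_iff.1 (Nat.dvd_one.1 h1)
    rw [mul_inv_eq_one, mul_inv_eq_iff_eq_mul] at h2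
    exact h2

/-- the largest normal subgroup of elements of `M` commuting with `M'` modulo the kernel of `ψ` -/
theorem exists_L (ψ : D →* G) (hinj : ∀ d, (∀ i, π i d = 1) → d = 1)
    (M M' : Subgroup D) (hM : M ≤ PP π) (hM' : M' ≤ PP π) (nM : M.Normal) (nM' : M'.Normal) :
    ∃ L : Subgroup D, L.Normal ∧ L ≤ M ∧
      ∀ x ∈ M, (x ∈ L ↔ ∀ y ∈ M', ψ (x * y * x⁻¹ * y⁻¹) = 1) := by
  have hone : ∀ y ∈ M', ψ (1 * y * (1 : D)⁻¹ * y⁻¹) = 1 := by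
    intro y _
    simp
  let L : Subgroup D :=
    { carrier := {x | x ∈ M ∧ ∀ y ∈ M', ψ (x * y * x⁻¹ * y⁻¹) = 1}
      one_mem' := ⟨M.one_mem, hone⟩
      mul_mem' := by
        rintro a b ⟨ha, ha'⟩ ⟨hb, hb'⟩
        refine ⟨M.mul_mem ha hb, fun y hy => ?_⟩
        rw [cm_mul hinj (hM ha) (hM hb) (hM' hy), map_mul, ha' y hy, hb' y hy, one_mul]
      inv_mem' := by
        rintro a ⟨ha, ha'⟩
        refine ⟨M.inv_mem ha, fun y hy => ?_⟩
        have h1 := cm_mul hinj (hM ha) (hM (M.inv_mem ha)) (hM' hy)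
        rw [mul_inv_cancel] at h1
        have h2 := hone y hy
        rw [h1, map_mul, ha' y hy, one_mul] at h2
        exact h2 }
  refine ⟨L, ⟨?_⟩, fun x hx => hx.1, fun x hx => ⟨fun h => h.2, fun h => ⟨hx, h⟩⟩⟩
  rintro x ⟨hx, hx'⟩ d
  refine ⟨nM.conj_mem x hx d, fun y hy => ?_⟩
  have h1 : d * x * d⁻¹ * y * (d * x * d⁻¹)⁻¹ * y⁻¹ =
      d * (x * (d⁻¹ * y * d⁻¹⁻¹) * x⁻¹ * (d⁻¹ * y * d⁻¹⁻¹)⁻¹) * d⁻¹ := by group
  rw [h1, map_mul, map_mul, hx' _ (nM'.conj_mem y hy d⁻¹), map_inv, mul_one, mul_inv_cancel]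

end NonAb

theorem bIII : StatementBIII := by
  intro p H V W Z _ _ _ _ _ _ _ _ _ _ _ β hβ hIII G _ _ hG hGA
  obtain ⟨ι, _, D, _, _, π, ψ, hπ, hinj, hψ⟩ := hasPres_of_mem_form hG
  obtain ⟨x₀, hx₀, y₀, hy₀, hxy₀⟩ := exists_noncomm hIII ψ hψ hinj hGA
  -- choice of `M₁`
  let 𝒮₁ : Set (Subgroup D) := {M | M.Normal ∧ M ≤ PP π ∧
    ∃ x ∈ M, ∃ y ∈ PP π, ψ (x * y * x⁻¹ * y⁻¹) ≠ 1}
  have ne₁ : 𝒮₁.Nonempty := ⟨PP π, PP_normal π, le_rfl, x₀, hx₀, y₀, hy₀, hxy₀⟩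
  obtain ⟨M₁, hM₁⟩ := (Set.toFinite 𝒮₁).exists_minimal ne₁
  obtain ⟨n₁, le₁, x₁, hx₁, y₁, hy₁, hxy₁⟩ : M₁.Normal ∧ M₁ ≤ PP π ∧
    ∃ x ∈ M₁, ∃ y ∈ PP π, ψ (x * y * x⁻¹ * y⁻¹) ≠ 1 := hM₁.1
  let 𝒮₂ : Set (Subgroup D) := {M | M.Normal ∧ M ≤ PP π ∧
    ∃ x ∈ M₁, ∃ y ∈ M, ψ (x * y * x⁻¹ * y⁻¹) ≠ 1}
  have ne₂ : 𝒮₂.Nonempty := ⟨PP π, PP_normal π, le_rfl, x₁, hx₁, y₁, hy₁, hxy₁⟩
  obtain ⟨M₂, hM₂⟩ := (Set.toFinite 𝒮₂).exists_minimal ne₂
  obtain ⟨n₂, le₂, x₂, hx₂, y₂, hy₂, hxy₂⟩ : M₂.Normal ∧ M₂ ≤ PP π ∧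
    ∃ x ∈ M₁, ∃ y ∈ M₂, ψ (x * y * x⁻¹ * y⁻¹) ≠ 1 := hM₂.1
  have hsw : ∀ x y : D, ψ (x * y * x⁻¹ * y⁻¹) = 1 ↔ ψ (y * x * y⁻¹ * x⁻¹) = 1 := by
    intro x y
    have : y * x * y⁻¹ * x⁻¹ = (x * y * x⁻¹ * y⁻¹)⁻¹ := by group
    rw [this, map_inv, inv_eq_one]
  obtain ⟨L₁, nL₁, hL₁, l₁⟩ := exists_L ψ hinj M₁ M₂ le₁ le₂ n₁ n₂
  obtain ⟨L₂, nL₂, hL₂, l₂⟩ := exists_L ψ hinj M₂ M₁ le₂ le₁ n₂ n₁
  have c₁ : Chief M₁ L₁ := by
    refine ⟨n₁, hL₁, ?_, nL₁, ?_⟩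
    · intro h
      apply hxy₂
      rw [← h] at hx₂
      exact (l₁ x₂ (hL₁ hx₂)).1 hx₂ y₂ hy₂
    · intro K nK hK hne x hx
      rw [l₁ x (hK hx)]
      intro y hy
      by_contra hc
      apply hne
      exact le_antisymm hK (hM₁.2 ⟨nK, hK.trans le₁, x, hx, y, le₂ hy, hc⟩ hK)
  have c₂ : Chief M₂ L₂ := by
    refine ⟨n₂, hL₂, ?_, nL₂, ?_⟩
    · intro h
      apply hxy₂
      rw [← h] at hy₂
      exact (hsw x₂ y₂).2 ((l₂ y₂ (hL₂ hy₂)).1 hy₂ x₂ hx₂)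
    · intro K nK hK hne y hy
      rw [l₂ y (hK hy)]
      intro x hx
      by_contra hc
      apply hne
      exact le_antisymm hK (hM₂.2 ⟨nK, hK.trans le₂, x, hx, y, hy,
        fun h => hc ((hsw x y).1 h)⟩ hK)
  -- choice of `i₀`
  have hne : x₂ * y₂ * x₂⁻¹ * y₂⁻¹ ≠ 1 := by
    intro h
    rw [h, map_one] at hxy₂
    exact hxy₂ rfl
  have hi : ∃ i, π i (x₂ * y₂ * x₂⁻¹ * y₂⁻¹) ≠ 1 := by
    by_contra hc
    push Not at hc
    exact hne (hinj _ hc)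
  obtain ⟨i₀, hi₀⟩ := hi
  rw [comm_coord π i₀ (le₁ hx₂) (le₂ hy₂)] at hi₀
  have hz : altForm β (vv π i₀ x₂, ww π i₀ x₂) (vv π i₀ y₂, ww π i₀ y₂) ≠ 0 := by
    intro h
    rw [h] at hi₀
    exact hi₀ zc_zero
  have hcase : (β (vv π i₀ x₂) (ww π i₀ y₂) ≠ 0) ∨ (β (vv π i₀ y₂) (ww π i₀ x₂) ≠ 0) := by
    by_contra hc
    push Not at hc
    apply hz
    change β (vv π i₀ x₂) (ww π i₀ y₂) - β (vv π i₀ y₂) (ww π i₀ x₂) = 0
    rw [hc.1, hc.2, sub_zero]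
  have hFG := Formation.mem_form G
  rcases hcase with h | h
  · refine main_pair hIII (form G) hFG ψ hψ hπ hinj M₁ M₂ L₁ L₂ le₁ le₂ c₁ c₂ l₁ ?_ i₀
      ⟨x₂, hx₂, ?_⟩ ⟨y₂, hy₂, ?_⟩
    · intro y hy
      rw [l₂ y hy]
      exact ⟨fun h x hx => (hsw x y).2 (h x hx), fun h x hx => (hsw x y).1 (h x hx)⟩
    · intro h0
      rw [h0, map_zero] at h
      exact h rfl
    · intro h0
      rw [h0, map_zero] at h
      exact h rfl
  · refine main_pair hIII (form G) hFG ψ hψ hπ hinj M₂ M₁ L₂ L₁ le₂ le₁ c₂ c₁ l₂ ?_ i₀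
      ⟨y₂, hy₂, ?_⟩ ⟨x₂, hx₂, ?_⟩
    · intro x hx
      rw [l₁ x hx]
      exact ⟨fun h y hy => (hsw x y).1 (h y hy), fun h y hy => (hsw x y).2 (h y hy)⟩
    · intro h0
      rw [h0, map_zero] at h
      exact h rfl
    · intro h0
      rw [h0, map_zero] at h
      exact h rfl

end Pool.Agent.Helper36.Form
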