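import Pool.Agent.Helper36.Form.S

/-!
# Type III: canonicalisation
-/

namespace Pool.Agent.Helper36.Form

open Pool.Agent.Helper38.Form Function

/-- the action on a quotient by an invariant subgroup -/
@[reducible] def quotAction {G A : Type} [Group G] [AddCommGroup A] [DistribMulAction G A]
    (S : AddSubgroup A) (hS : ∀ g : G, ∀ z ∈ S, g • z ∈ S) : DistribMulAction G (A ⧸ S) where
  smul g := QuotientAddGroup.map S S (DistribMulAction.toAddMonoidHom A g)
    (fun z hz => hS g z hz)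
  one_smul := by
    rintro ⟨z⟩
    exact congrArg (QuotientAddGroup.mk (s := S)) (one_smul G z)
  mul_smul := by
    rintro g h ⟨z⟩
    exact congrArg (QuotientAddGroup.mk (s := S)) (mul_smul g h z)
  smul_zero := fun g => map_zero _
  smul_add := fun g => map_add _

section SymGroup

variable {H V W : Type} [Group H] [AddCommGroup V] [AddCommGroup W]
  [DistribMulAction H V] [DistribMulAction H W]

theorem isSymmetry_trans {τ δ : (V × W) ≃+ (V × W)} (hτ : IsSymmetry H τ)
    (hδ : IsSymmetry H δ) : IsSymmetry H (δ.trans τ) := by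
  refine ⟨?_, ?_⟩
  · have sV : ∀ x : V × W, x.2 = 0 → x = (x.1, 0) := fun x h => Prod.ext rfl h
    have sW : ∀ x : V × W, x.1 = 0 → x = (0, x.2) := fun x h => Prod.ext h rfl
    rcases hδ.1 with ⟨h1, h2⟩ | ⟨h1, h2⟩ <;> rcases hτ.1 with ⟨k1, k2⟩ | ⟨k1, k2⟩
    · left
      refine ⟨fun v => ?_, fun w => ?_⟩
      · change (τ (δ (v, 0))).2 = 0
        rw [sV _ (h1 v)]; exact k1 _
      · change (τ (δ (0, w))).1 = 0
        rw [sW _ (h2 w)]; exact k2 _
    · right
      refine ⟨fun v => ?_, fun w => ?_⟩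
      · change (τ (δ (v, 0))).1 = 0
        rw [sV _ (h1 v)]; exact k1 _
      · change (τ (δ (0, w))).2 = 0
        rw [sW _ (h2 w)]; exact k2 _
    · right
      refine ⟨fun v => ?_, fun w => ?_⟩
      · change (τ (δ (v, 0))).1 = 0
        rw [sW _ (h1 v)]; exact k2 _
      · change (τ (δ (0, w))).2 = 0
        rw [sV _ (h2 w)]; exact k1 _
    · left
      refine ⟨fun v => ?_, fun w => ?_⟩
      · change (τ (δ (v, 0))).2 = 0
        rw [sW _ (h1 v)]; exact k2 _
      · change (τ (δ (0, w))).1 = 0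
        rw [sV _ (h2 w)]; exact k1 _
  · intro h
    obtain ⟨h', hh'⟩ := hδ.2 h
    obtain ⟨h'', hh''⟩ := hτ.2 h'
    refine ⟨h'', fun x => ?_⟩
    change τ (δ (h • x)) = h'' • τ (δ x)
    rw [hh', hh'']

theorem isSymmetry_smul (h : H) :
    IsSymmetry H (DistribMulAction.toAddEquiv (V × W) h) := by
  refine ⟨Or.inl ⟨fun v => ?_, fun w => ?_⟩, fun g => ⟨h * g * h⁻¹, fun x => ?_⟩⟩
  · change h • (0 : W) = 0
    simp
  · change h • (0 : V) = 0
    simp
  · change h • (g • x) = (h * g * h⁻¹) • (h • x)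
    simp [mul_smul]

theorem isSymmetry_refl : IsSymmetry H (AddEquiv.refl (V × W)) :=
  ⟨Or.inl ⟨fun _ => rfl, fun _ => rfl⟩, fun h => ⟨h, fun _ => rfl⟩⟩

variable (H V W) in
/-- the type of symmetries -/
abbrev Sy : Type := {τ : (V × W) ≃+ (V × W) // IsSymmetry H τ}

end SymGroup

section Core

variable {H V W Z A B : Type} [Group H] [AddCommGroup V] [AddCommGroup W]
  [AddCommGroup Z] [AddCommGroup A] [AddCommGroup B]

theorem hom_ext {α : V →+ W →+ A} (hα : AddSubgroup.closure {z : A | ∃ v w, z = α v w} = ⊤)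
    {f g : A →+ B} (h : ∀ v w, f (α v w) = g (α v w)) : f = g := by
  ext a
  have ha : a ∈ AddSubgroup.closure {z : A | ∃ v w, z = α v w} := by rw [hα]; trivial
  induction ha using AddSubgroup.closure_induction with
  | mem x hx => obtain ⟨v, w, rfl⟩ := hx; exact h v w
  | zero => simp
  | add x y _ _ hx hy => rw [map_add, map_add, hx, hy]
  | neg x _ hx => rw [map_neg, map_neg, hx]

variable [Finite H] [Finite V] [Finite W] [Finite Z] [Finite A]
  [DistribMulAction H V] [DistribMulAction H W] [DistribMulAction H Z]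

theorem core (F : Formation) (p : ℕ) (β : V →+ W →+ Z)
    (hβ : ∀ (h : H) (v : V) (w : W), β (h • v) (h • w) = h • β v w)
    (hIII : IsTypeIII' p (H := H) β)
    (hgen : AddSubgroup.closure {z : Z | ∃ v w, z = β v w} = ⊤)
    (hmem : F.Mem (Heis β ⋊[heisAct β hβ] H))
    (α : V →+ W →+ A) (hα : AddSubgroup.closure {z : A | ∃ v w, z = α v w} = ⊤)
    (ev : Sy H V W → A →+ Z)
    (hev : ∀ (τ : Sy H V W) (x y : V × W), ev τ (altForm α x y) = altForm β (τ.1 x) (τ.1 y))
    (hinj : ∀ a, (∀ τ, ev τ a = 0) → a = 0)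
    (c : Sy H V W → A →+ A)
    (hc : ∀ (δ : Sy H V W) (x y : V × W), c δ (altForm α x y) = altForm α (δ.1 x) (δ.1 y))
    (hcs : ∀ δ, Surjective (c δ)) :
    ∃ (Z₁ : Type) (_ : AddCommGroup Z₁) (_ : Finite Z₁) (_ : DistribMulAction H Z₁)
      (β₁ : V →+ W →+ Z₁)
      (hβ₁ : ∀ (h : H) (v : V) (w : W), β₁ (h • v) (h • w) = h • β₁ v w),
      IsTypeIII p (H := H) β₁ ∧ F.Mem (Heis β₁ ⋊[heisAct β₁ hβ₁] H) := by
  obtain ⟨hp, hHA, hpH, hVp, hWp, hVirr, hWirr, hfaith, ⟨v₀, w₀, hvw₀⟩⟩ := hIII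
  -- maximal proper invariant subgroup
  let 𝒮 : Set (AddSubgroup A) := {S | S ≠ ⊤ ∧ ∀ δ, ∀ z ∈ S, c δ z ∈ S}
  have hne : 𝒮.Nonempty := by
    refine ⟨⊥, ?_, ?_⟩
    · intro h
      have h1 : α v₀ w₀ ∈ (⊥ : AddSubgroup A) := by rw [h]; trivial
      rw [AddSubgroup.mem_bot] at h1
      have h2 := hev ⟨AddEquiv.refl _, isSymmetry_refl⟩ (v₀, 0) (0, w₀)
      rw [altForm_VW, h1, map_zero] at h2
      apply hvw₀
      rw [← altForm_VW β]
      exact h2.symm
    · intro δ z hz
      rw [AddSubgroup.mem_bot] at hz ⊢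
      rw [hz, map_zero]
  obtain ⟨S, hS⟩ := (Set.toFinite 𝒮).exists_maximal hne
  obtain ⟨hStop, hSinv⟩ : S ≠ ⊤ ∧ ∀ δ, ∀ z ∈ S, c δ z ∈ S := hS.1
  -- the action of `H` on `A`
  let τh : H → Sy H V W := fun h => ⟨DistribMulAction.toAddEquiv (V × W) h, isSymmetry_smul h⟩
  have hα' : ∀ (δ : Sy H V W) (v : V) (w : W),
      c δ (α v w) = altForm α (δ.1 (v, 0)) (δ.1 (0, w)) := by
    intro δ v w
    rw [← hc, altForm_VW]
  have hcτ : ∀ (h : H) (v : V) (w : W), c (τh h) (α v w) = α (h • v) (h • w) := by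
    intro h v w
    rw [hα']
    have e1 : (τh h).1 (v, 0) = (h • v, 0) := by
      change h • ((v, 0) : V × W) = _
      ext <;> simp
    have e2 : (τh h).1 (0, w) = (0, h • w) := by
      change h • ((0, w) : V × W) = _
      ext <;> simp
    rw [e1, e2, altForm_VW]
  letI actA : DistribMulAction H A :=
    { smul := fun h => c (τh h)
      one_smul := fun a => by
        have : c (τh 1) = AddMonoidHom.id A := hom_ext hα (fun v w => by rw [hcτ]; simp)
        exact congrArg (fun f : A →+ A => f a) this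
      mul_smul := fun g h a => by
        have : c (τh (g * h)) = (c (τh g)).comp (c (τh h)) := hom_ext hα (fun v w => by
          rw [AddMonoidHom.comp_apply, hcτ, hcτ, hcτ, mul_smul, mul_smul])
        exact congrArg (fun f : A →+ A => f a) this
      smul_zero := fun h => map_zero _
      smul_add := fun h => map_add _ }
  have hαeq : ∀ (h : H) (v : V) (w : W), α (h • v) (h • w) = h • α v w :=
    fun h v w => (hcτ h v w).symm
  letI actQ : DistribMulAction H (A ⧸ S) := quotAction S (fun h z hz => hSinv (τh h) z hz)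
  let mk : A →+ A ⧸ S := QuotientAddGroup.mk' S
  have hmk : Surjective mk := QuotientAddGroup.mk'_surjective S
  have hmkact : ∀ (h : H) (a : A), mk (h • a) = h • mk a := fun h a => rfl
  let β₁ : V →+ W →+ A ⧸ S := α.compr₂ mk
  have hβ₁a : ∀ v w, β₁ v w = mk (α v w) := fun v w => rfl
  have haltβ₁ : ∀ x y, altForm β₁ x y = mk (altForm α x y) := by
    intro x y
    simp only [altForm, hβ₁a, map_sub]
  have hβ₁ : ∀ (h : H) (v : V) (w : W), β₁ (h • v) (h • w) = h • β₁ v w := by
    intro h v w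
    rw [hβ₁a, hβ₁a, hαeq, hmkact]
  have hgen₁ : AddSubgroup.closure {z : A ⧸ S | ∃ v w, z = β₁ v w} = ⊤ := by
    rw [eq_top_iff]
    rintro z -
    obtain ⟨a, rfl⟩ := hmk z
    have ha : a ∈ AddSubgroup.closure {z : A | ∃ v w, z = α v w} := by rw [hα]; trivial
    induction ha using AddSubgroup.closure_induction with
    | mem x hx =>
      obtain ⟨v, w, rfl⟩ := hx
      exact AddSubgroup.subset_closure ⟨v, w, rfl⟩
    | zero => rw [map_zero]; exact zero_mem _
    | add x y _ _ hx hy => rw [map_add]; exact add_mem hx hy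
    | neg x _ hx => rw [map_neg]; exact neg_mem hx
  -- induced automorphisms
  let cQ : Sy H V W → A ⧸ S →+ A ⧸ S := fun δ =>
    QuotientAddGroup.map S S (c δ) (fun z hz => hSinv δ z hz)
  have hcQ : ∀ δ a, cQ δ (mk a) = mk (c δ a) := fun δ a => rfl
  have hcQs : ∀ δ, Surjective (cQ δ) := by
    intro δ z
    obtain ⟨a, rfl⟩ := hmk z
    obtain ⟨a', rfl⟩ := hcs δ a
    exact ⟨mk a', hcQ δ a'⟩
  let cE : Sy H V W → (A ⧸ S ≃+ A ⧸ S) := fun δ =>
    AddEquiv.ofBijective (cQ δ) ⟨Finite.injective_iff_surjective.2 (hcQs δ), hcQs δ⟩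
  have hcE : ∀ δ, Induces β₁ δ.1 (cE δ) := by
    intro δ x y
    rw [haltβ₁, haltβ₁, ← hc]
    exact (hcQ δ _).symm
  refine ⟨A ⧸ S, inferInstance, inferInstance, actQ, β₁, hβ₁, ?_, ?_⟩
  · refine ⟨hp, hHA, hpH, hVp, hWp, hVirr, hWirr, hfaith, ?_, hgen₁,
      fun τ hτ => ⟨cE ⟨τ, hτ⟩, hcE ⟨τ, hτ⟩⟩, ?_⟩
    · exact QuotientAddGroup.nontrivial_iff.2 hStop
    · intro T hT
      have hinvT : ∀ δ, ∀ z ∈ T.comap mk, c δ z ∈ T.comap mk := by
        intro δ z hz
        exact hT δ.1 δ.2 (cE δ) (hcE δ) (mk z) hz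
      have hle : S ≤ T.comap mk := by
        intro z hz
        change mk z ∈ T
        have : mk z = 0 := (QuotientAddGroup.eq_zero_iff z).2 hz
        rw [this]
        exact T.zero_mem
      by_cases htop : T.comap mk = ⊤
      · right
        rw [eq_top_iff]
        rintro z -
        obtain ⟨a, rfl⟩ := hmk z
        have : a ∈ T.comap mk := by rw [htop]; trivial
        exact this
      · left
        have hle' : T.comap mk ≤ S := hS.2 ⟨htop, hinvT⟩ hle
        rw [eq_bot_iff]
        intro z hz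
        obtain ⟨a, rfl⟩ := hmk z
        have : a ∈ S := hle' hz
        exact (QuotientAddGroup.eq_zero_iff a).2 this
  · -- membership
    have sig : ∀ τ : Sy H V W, ∃ σ : H →* H, (∀ (h : H) (x : V × W), τ.1 (h • x) = σ h • τ.1 x) ∧
        Bijective σ := fun τ => exists_sigma hfaith τ.2
    choose σ hσ hσb using sig
    have hevσ : ∀ (τ : Sy H V W) (h : H) (a : A), ev τ (h • a) = σ τ h • ev τ a := by
      intro τ h a
      have : (ev τ).comp (DistribMulAction.toAddMonoidHom A h) =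
          (DistribMulAction.toAddMonoidHom Z (σ τ h)).comp (ev τ) := by
        apply hom_ext hα
        intro v w
        change ev τ (h • α v w) = σ τ h • ev τ (α v w)
        have e1 : ((h • v, 0) : V × W) = h • ((v, 0) : V × W) := by ext <;> simp
        have e2 : ((0, h • w) : V × W) = h • ((0, w) : V × W) := by ext <;> simp
        rw [← hαeq, ← altForm_VW α v w, ← altForm_VW α (h • v) (h • w), hev, hev,
          ← altForm_smul β hβ, e1, e2, hσ, hσ]
      exact congrArg (fun f : A →+ Z => f a) this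
    have hevs : ∀ τ, Surjective (ev τ) := by
      intro τ
      have : ∀ v w, β v w ∈ (ev τ).range := by
        intro v w
        obtain ⟨x, hx⟩ := τ.1.surjective (v, 0)
        obtain ⟨y, hy⟩ := τ.1.surjective (0, w)
        refine ⟨altForm α x y, ?_⟩
        rw [hev, hx, hy, altForm_VW]
      have h2 : (ev τ).range = ⊤ := by
        rw [eq_top_iff, ← hgen, AddSubgroup.closure_le]
        rintro _ ⟨v, w, rfl⟩
        exact this v w
      exact AddMonoidHom.range_eq_top.1 h2
    refine F.mem_of_family' (X := Heis α ⋊[heisAct α hαeq] H) (ι := Sy H V W) hmem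
      (fun τ => theta hαeq hβ τ.2.1 (fun x y => (hev τ x y).symm) (hσ τ) (hevσ τ)) ?_
      (theta (τ := AddEquiv.refl _) (σ := MonoidHom.id H) hαeq hβ₁ (Or.inl ⟨fun _ => rfl, fun _ => rfl⟩)
        (c := mk) (fun x y => haltβ₁ x y) (fun _ _ => rfl) hmkact) ?_ ?_
    · intro τ
      exact theta_surjective _ _ _ _ _ _ (hσb τ).2 (hevs τ)
    · exact theta_surjective _ _ _ _ _ _ surjective_id hmk
    · intro x hx
      have hx' : x = 1 := by
        have key := fun τ => theta_eq_one _ _ _ _ _ _ (hσb τ).1 (hx τ)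
        obtain ⟨k1, k2, -, k4⟩ := key ⟨AddEquiv.refl _, isSymmetry_refl⟩
        have k3 : x.left.z = 0 := hinj _ (fun τ => (key τ).2.2.1)
        ext
        · exact k1
        · exact k2
        · exact k3
        · exact k4
      rw [hx', map_one]

end Core

end Pool.Agent.Helper36.Form
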