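import Pool.Agent.Helper36.Form.C3

/-!
# Type III: canonicalisation, the theorem
-/

namespace Pool.Agent.Helper36.Form

open Pool.Agent.Helper38.Form Function

section ConjLemmas

variable {H V W Z : Type} [Group H] [AddCommGroup V] [AddCommGroup W] [AddCommGroup Z]
  [DistribMulAction H V] [DistribMulAction H W] [DistribMulAction H Z]
  {β : V →+ W →+ Z} {hβ : ∀ (h : H) (v : V) (w : W), β (h • v) (h • w) = h • β v w}

theorem heis_conj_v (a b : Heis β) : (a * b * a⁻¹).v = b.v := by simp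
theorem heis_conj_w (a b : Heis β) : (a * b * a⁻¹).w = b.w := by simp
theorem heis_conj_z (a b : Heis β) : (a * b * a⁻¹).z = b.z + (β a.v b.w - β b.v a.w) := by
  simp only [Heis.mul_z, Heis.mul_v, Heis.inv_w, Heis.inv_z, map_add, map_neg,
    AddMonoidHom.add_apply]
  abel

theorem sd_conj_left (d x : Heis β ⋊[heisAct β hβ] H) (hx : x.right = 1) :
    (d * x * d⁻¹).left = d.left * (heisAct β hβ d.right x.left) * d.left⁻¹ := by
  rw [SemidirectProduct.mul_left, SemidirectProduct.mul_left, SemidirectProduct.mul_right, hx,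
    mul_one, SemidirectProduct.inv_left, ← MulAut.mul_apply, ← map_mul, mul_inv_cancel, map_one]
  rfl

theorem sd_conj_right (d x : Heis β ⋊[heisAct β hβ] H) (hx : x.right = 1) :
    (d * x * d⁻¹).right = 1 := by
  simp [hx]

theorem sd_conj_v (d x : Heis β ⋊[heisAct β hβ] H) (hx : x.right = 1) :
    (d * x * d⁻¹).left.v = d.right • x.left.v := by
  rw [sd_conj_left d x hx, heis_conj_v]
  rfl

theorem sd_conj_w (d x : Heis β ⋊[heisAct β hβ] H) (hx : x.right = 1) :
    (d * x * d⁻¹).left.w = d.right • x.left.w := by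
  rw [sd_conj_left d x hx, heis_conj_w]
  rfl

theorem sd_conj_z (d x : Heis β ⋊[heisAct β hβ] H) (hx : x.right = 1) :
    (d * x * d⁻¹).left.z = d.right • x.left.z +
      (β d.left.v (d.right • x.left.w) - β (d.right • x.left.v) d.left.w) := by
  rw [sd_conj_left d x hx, heis_conj_z]
  rfl

theorem sd_mul_v (x y : Heis β ⋊[heisAct β hβ] H) (hx : x.right = 1) :
    (x * y).left.v = x.left.v + y.left.v := by
  change x.left.v + x.right • y.left.v = _
  rw [hx, one_smul]

theorem sd_mul_w (x y : Heis β ⋊[heisAct β hβ] H) (hx : x.right = 1) :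
    (x * y).left.w = x.left.w + y.left.w := by
  change x.left.w + x.right • y.left.w = _
  rw [hx, one_smul]

theorem sd_mul_z (x y : Heis β ⋊[heisAct β hβ] H) (hx : x.right = 1) :
    (x * y).left.z = x.left.z + y.left.z + β x.left.v y.left.w := by
  change x.left.z + x.right • y.left.z + β x.left.v (x.right • y.left.w) = _
  rw [hx, one_smul, one_smul]

theorem sd_inv_left (x : Heis β ⋊[heisAct β hβ] H) (hx : x.right = 1) :
    (x⁻¹).left = (x.left)⁻¹ := by
  rw [SemidirectProduct.inv_left, hx, inv_one, map_one]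
  rfl

theorem sd_comm_left (x y : Heis β ⋊[heisAct β hβ] H) (hx : x.right = 1) (hy : y.right = 1) :
    (x * y * x⁻¹ * y⁻¹).left = ⟨0, 0, altForm β (x.left.v, x.left.w) (y.left.v, y.left.w)⟩ := by
  have h1 : (x * y * x⁻¹).right = 1 := sd_conj_right x y hy
  have hy' : (y⁻¹).left = (y.left)⁻¹ := sd_inv_left y hy
  have v1 := sd_conj_v x y hy
  have w1 := sd_conj_w x y hy
  have z1 := sd_conj_z x y hy
  rw [hx, one_smul] at v1 w1
  rw [hx, one_smul, one_smul, one_smul] at z1
  ext
  · rw [sd_mul_v _ _ h1, v1, hy']; simp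
  · rw [sd_mul_w _ _ h1, w1, hy']; simp
  · rw [sd_mul_z _ _ h1, v1, z1, hy']
    simp only [Heis.inv_z, Heis.inv_w, map_neg, altForm]
    abel

theorem sd_comm (x y : Heis β ⋊[heisAct β hβ] H) (hx : x.right = 1) (hy : y.right = 1) :
    x * y * x⁻¹ * y⁻¹ =
      ⟨⟨0, 0, altForm β (x.left.v, x.left.w) (y.left.v, y.left.w)⟩, 1⟩ := by
  ext1
  · exact sd_comm_left x y hx hy
  · simp [hx, hy]

end ConjLemmas

section Restrict

variable {H V W Z : Type} [Group H] [AddCommGroup V] [AddCommGroup W] [AddCommGroup Z]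
  [DistribMulAction H V] [DistribMulAction H W] [DistribMulAction H Z]

/-- the action on an invariant subgroup -/
@[reducible] def subAction (S : AddSubgroup Z)
    (hS : ∀ g : H, ∀ z ∈ S, g • z ∈ S) : DistribMulAction H S where
  smul g z := ⟨g • z.1, hS g z.1 z.2⟩
  one_smul := fun z => Subtype.ext (one_smul H z.1)
  mul_smul := fun g h z => Subtype.ext (mul_smul g h z.1)
  smul_zero := fun g => Subtype.ext (smul_zero g)
  smul_add := fun g x y => Subtype.ext (smul_add g x.1 y.1)

/-- corestriction of a biadditive map to the subgroup generated by its values -/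
def corestrict (β : V →+ W →+ Z) :
    V →+ W →+ (AddSubgroup.closure {z : Z | ∃ v w, z = β v w}) :=
  AddMonoidHom.mk' (fun v => AddMonoidHom.mk'
    (fun w => ⟨β v w, AddSubgroup.subset_closure ⟨v, w, rfl⟩⟩)
    (fun w w' => Subtype.ext (map_add _ _ _)))
    (fun v v' => by
      ext w
      exact congrArg (fun f : W →+ Z => f w) (map_add β v v'))

theorem coe_corestrict (β : V →+ W →+ Z) (v : V) (w : W) :
    (corestrict β v w : Z) = β v w := rfl

theorem closure_corestrict (β : V →+ W →+ Z) :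
    AddSubgroup.closure {z | ∃ v w, z = corestrict β v w} = ⊤ := by
  have h := AddSubgroup.closure_closure_coe_preimage (k := {z : Z | ∃ v w, z = β v w})
  rw [eq_top_iff, ← h]
  apply AddSubgroup.closure_mono
  rintro z ⟨v, w, hz⟩
  exact ⟨v, w, Subtype.ext hz⟩

theorem closure_invariant {β : V →+ W →+ Z}
    (hβ : ∀ (h : H) (v : V) (w : W), β (h • v) (h • w) = h • β v w) (g : H) (z : Z)
    (hz : z ∈ AddSubgroup.closure {z : Z | ∃ v w, z = β v w}) :
    g • z ∈ AddSubgroup.closure {z : Z | ∃ v w, z = β v w} := by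
  induction hz using AddSubgroup.closure_induction with
  | mem x hx =>
    obtain ⟨v, w, rfl⟩ := hx
    exact AddSubgroup.subset_closure ⟨g • v, g • w, (hβ g v w).symm⟩
  | zero => rw [smul_zero]; exact zero_mem _
  | add x y _ _ hx hy => rw [smul_add]; exact add_mem hx hy
  | neg x _ hx => rw [smul_neg]; exact neg_mem hx

theorem restrict_mem [Finite H] [Finite V] [Finite W] [Finite Z] (F : Formation)
    (β : V →+ W →+ Z)
    (hβ : ∀ (h : H) (v : V) (w : W), β (h • v) (h • w) = h • β v w)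
    (hmem : F.Mem (Heis β ⋊[heisAct β hβ] H)) (B : AddSubgroup Z)
    (hBm : ∀ v w, β v w ∈ B) (hBi : ∀ (h : H), ∀ z ∈ B, h • z ∈ B)
    [DistribMulAction H B]
    (hact : ∀ (h : H) (z : B), ((h • z : B) : Z) = h • (z : Z))
    (γ : V →+ W →+ B) (hγ : ∀ v w, (γ v w : Z) = β v w)
    (hβ' : ∀ (h : H) (v : V) (w : W), γ (h • v) (h • w) = h • γ v w) :
    F.Mem (Heis γ ⋊[heisAct γ hβ'] H) := by
  classical
  let D := Heis β ⋊[heisAct β hβ] H
  let M₁ : Subgroup D :=
    { carrier := {d | d.right = 1 ∧ d.left.w = 0}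
      one_mem' := ⟨rfl, rfl⟩
      mul_mem' := by
        rintro a b ⟨h1, h2⟩ ⟨h3, h4⟩
        exact ⟨by change a.right * b.right = 1; rw [h1, h3, one_mul], by rw [sd_mul_w _ _ h1, h2, h4, add_zero]⟩
      inv_mem' := by
        rintro a ⟨h1, h2⟩
        exact ⟨by change (a.right)⁻¹ = 1; rw [h1, inv_one], by rw [sd_inv_left _ h1, Heis.inv_w, h2, neg_zero]⟩ }
  let M₂ : Subgroup D :=
    { carrier := {d | d.right = 1 ∧ d.left.v = 0}
      one_mem' := ⟨rfl, rfl⟩
      mul_mem' := by
        rintro a b ⟨h1, h2⟩ ⟨h3, h4⟩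
        exact ⟨by change a.right * b.right = 1; rw [h1, h3, one_mul], by rw [sd_mul_v _ _ h1, h2, h4, add_zero]⟩
      inv_mem' := by
        rintro a ⟨h1, h2⟩
        exact ⟨by change (a.right)⁻¹ = 1; rw [h1, inv_one], by rw [sd_inv_left _ h1, Heis.inv_v, h2, neg_zero]⟩ }
  let N : Subgroup D :=
    { carrier := {d | d.right = 1 ∧ d.left.v = 0 ∧ d.left.w = 0 ∧ d.left.z ∈ B}
      one_mem' := ⟨rfl, rfl, rfl, B.zero_mem⟩
      mul_mem' := by
        rintro a b ⟨h1, h2, h3, h4⟩ ⟨k1, k2, k3, k4⟩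
        refine ⟨by change a.right * b.right = 1; rw [h1, k1, one_mul], by rw [sd_mul_v _ _ h1, h2, k2, add_zero],
          by rw [sd_mul_w _ _ h1, h3, k3, add_zero], ?_⟩
        rw [sd_mul_z _ _ h1, h2, map_zero, AddMonoidHom.zero_apply, add_zero]
        exact B.add_mem h4 k4
      inv_mem' := by
        rintro a ⟨h1, h2, h3, h4⟩
        refine ⟨by change (a.right)⁻¹ = 1; rw [h1, inv_one], ?_, ?_, ?_⟩
        · rw [sd_inv_left _ h1, Heis.inv_v, h2, neg_zero]
        · rw [sd_inv_left _ h1, Heis.inv_w, h3, neg_zero]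
        · rw [sd_inv_left _ h1, Heis.inv_z, h2, map_zero, AddMonoidHom.zero_apply, add_zero]
          exact B.neg_mem h4 }
  have n1 : M₁.Normal := ⟨by
    rintro x ⟨h1, h2⟩ d
    exact ⟨sd_conj_right d x h1, by rw [sd_conj_w d x h1, h2, smul_zero]⟩⟩
  have n2 : M₂.Normal := ⟨by
    rintro x ⟨h1, h2⟩ d
    exact ⟨sd_conj_right d x h1, by rw [sd_conj_v d x h1, h2, smul_zero]⟩⟩
  have n3 : N.Normal := ⟨by
    rintro x ⟨h1, h2, h3, h4⟩ d
    refine ⟨sd_conj_right d x h1, by rw [sd_conj_v d x h1, h2, smul_zero],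
      by rw [sd_conj_w d x h1, h3, smul_zero], ?_⟩
    rw [sd_conj_z d x h1, h2, h3]
    simp only [smul_zero, map_zero, AddMonoidHom.zero_apply, sub_zero, add_zero]
    exact hBi _ _ h4⟩
  let ζ : D → B := fun d => if h : d.left.z ∈ B then ⟨d.left.z, h⟩ else 0
  have hζ : ∀ d ∈ N, (ζ d : Z) = d.left.z := by
    rintro d ⟨-, -, -, h⟩
    simp [ζ, h]
  refine heis_mem F (D := D) hmem (MonoidHom.id D) surjective_id M₁ M₂ N γ hβ'
    SemidirectProduct.rightHom SemidirectProduct.rightHom_surjective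
    (fun d => d.left.v) (fun d => d.left.w) ζ ?_ ?_ ?_ ?_ ?_ ?_ ?_ ?_ ?_ ?_ ?_ ?_ ?_ ?_ ?_ ?_ ?_
  · rintro x ⟨h1, -⟩ y -
    exact sd_mul_v x y h1
  · rintro x ⟨h1, -⟩ y -
    exact sd_mul_w x y h1
  · intro x hx y hy
    apply Subtype.ext
    rw [AddSubgroup.coe_add, hζ _ (N.mul_mem hx hy), hζ _ hx, hζ _ hy]
    obtain ⟨h1, h2, -, -⟩ := hx
    rw [sd_mul_z _ _ h1, h2, map_zero, AddMonoidHom.zero_apply, add_zero]
  · rintro d x ⟨h1, -⟩
    exact sd_conj_v d x h1
  · rintro d x ⟨h1, -⟩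
    exact sd_conj_w d x h1
  · intro d x hx
    apply Subtype.ext
    rw [hact, hζ _ hx, hζ _ (n3.conj_mem x hx d)]
    obtain ⟨h1, h2, h3, -⟩ := hx
    rw [sd_conj_z d x h1, h2, h3]
    simp only [smul_zero, map_zero, AddMonoidHom.zero_apply, sub_zero, add_zero]
    rfl
  · intro a
    exact ⟨⟨⟨a, 0, 0⟩, 1⟩, ⟨rfl, rfl⟩, rfl⟩
  · intro a
    exact ⟨⟨⟨0, a, 0⟩, 1⟩, ⟨rfl, rfl⟩, rfl⟩
  · intro a
    have hm : (⟨⟨0, 0, a.1⟩, 1⟩ : D) ∈ N := ⟨rfl, rfl, rfl, a.2⟩
    exact ⟨_, hm, Subtype.ext (hζ _ hm)⟩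
  · rintro x ⟨h, -⟩
    exact h
  · rintro x ⟨h, -⟩
    exact h
  · rintro x ⟨h1, h2⟩ y ⟨h3, h4⟩
    rw [sd_comm x y h1 h3]
    refine ⟨rfl, rfl, rfl, ?_⟩
    change altForm β _ _ ∈ B
    simp only [altForm, h2, h4, map_zero, sub_zero]
    exact hBm _ _
  · rintro x ⟨h1, h2⟩ y ⟨h3, h4⟩
    have hm : x * y * x⁻¹ * y⁻¹ ∈ N := by
      rw [sd_comm x y h1 h3]
      refine ⟨rfl, rfl, rfl, ?_⟩
      change altForm β _ _ ∈ B
      simp only [altForm, h2, h4, map_zero, sub_zero]
      exact hBm _ _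
    apply Subtype.ext
    rw [hζ _ hm, sd_comm x y h1 h3, hγ]
    change altForm β _ _ = _
    simp only [altForm, h2, h4, map_zero, sub_zero]
  · rintro x - hx
    have hx : x = 1 := hx
    rw [hx]; rfl
  · rintro x - hx
    have hx : x = 1 := hx
    rw [hx]; rfl
  · rintro x hm hx
    have hx : x = 1 := hx
    apply Subtype.ext
    rw [hζ _ hm, hx]; rfl
  · rintro d hd
    have hd : d = 1 := hd
    rw [hd, map_one]

end Restrict

section Hat

variable {H V W Z : Type} [Group H] [AddCommGroup V] [AddCommGroup W] [AddCommGroup Z]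
  [DistribMulAction H V] [DistribMulAction H W]

/-- the family of all pulled back forms -/
def omHat (β : V →+ W →+ Z) : V →+ W →+ (Sy H V W → Z) :=
  AddMonoidHom.mk' (fun v => AddMonoidHom.mk'
    (fun w => fun τ => altForm β (τ.1 (v, 0)) (τ.1 (0, w)))
    (fun w w' => by
      funext τ
      have : ((0 : V), w + w') = (0, w) + (0, w') := by simp
      rw [this, map_add, altForm_add_right]
      rfl))
    (fun v v' => by
      ext w τ
      have : (v + v', (0 : W)) = (v, 0) + (v', 0) := by simp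
      change altForm β (τ.1 (v + v', 0)) (τ.1 (0, w)) = _
      rw [this, map_add, altForm_add_left]
      rfl)

theorem omHat_apply (β : V →+ W →+ Z) (v : V) (w : W) (τ : Sy H V W) :
    omHat (H := H) β v w τ = altForm β (τ.1 (v, 0)) (τ.1 (0, w)) := rfl

theorem altForm_omHat (β : V →+ W →+ Z) (x y : V × W) (τ : Sy H V W) :
    altForm (omHat (H := H) β) x y τ = altForm β (τ.1 x) (τ.1 y) := by
  rw [PS.alt_eq τ.2.1]
  rfl

/-- composition on the right with a symmetry -/
def cc (δ : Sy H V W) : (Sy H V W → Z) →+ (Sy H V W → Z) where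
  toFun f τ := f ⟨δ.1.trans τ.1, isSymmetry_trans τ.2 δ.2⟩
  map_zero' := rfl
  map_add' _ _ := rfl

theorem cc_altForm (β : V →+ W →+ Z) (δ : Sy H V W) (x y : V × W) :
    cc δ (altForm (omHat (H := H) β) x y) = altForm (omHat (H := H) β) (δ.1 x) (δ.1 y) := by
  funext τ
  rw [altForm_omHat]
  exact altForm_omHat β x y _

/-- the group generated by the pulled back forms -/
abbrev hatSub (β : V →+ W →+ Z) : AddSubgroup (Sy H V W → Z) :=
  AddSubgroup.closure {z | ∃ v w, z = omHat (H := H) β v w}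

theorem altForm_mem_hatSub (β : V →+ W →+ Z) (x y : V × W) :
    altForm (omHat (H := H) β) x y ∈ hatSub (H := H) β :=
  sub_mem (AddSubgroup.subset_closure ⟨_, _, rfl⟩) (AddSubgroup.subset_closure ⟨_, _, rfl⟩)

theorem cc_mem (β : V →+ W →+ Z) (δ : Sy H V W) (f : Sy H V W → Z)
    (hf : f ∈ hatSub (H := H) β) : cc δ f ∈ hatSub (H := H) β := by
  have h : hatSub (H := H) β ≤ (hatSub (H := H) β).comap (cc δ) := by
    rw [hatSub, AddSubgroup.closure_le]
    rintro _ ⟨v, w, rfl⟩
    change cc δ (omHat (H := H) β v w) ∈ hatSub (H := H) β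
    rw [← altForm_VW (omHat (H := H) β) v w, cc_altForm]
    exact altForm_mem_hatSub β _ _
  exact h hf

end Hat

theorem cIII : StatementCIII := by
  intro F p H V W Z _ _ _ _ _ _ _ _ _ _ _ β hβ hIII hmem
  -- reduce to the case where the values generate
  letI : DistribMulAction H (AddSubgroup.closure {z : Z | ∃ v w, z = β v w}) :=
    subAction _ (closure_invariant hβ)
  have hact : ∀ (h : H) (z : (AddSubgroup.closure {z : Z | ∃ v w, z = β v w})),
      ((h • z : (AddSubgroup.closure {z : Z | ∃ v w, z = β v w})) : Z) = h • (z : Z) :=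
    fun h z => rfl
  have hβ' : ∀ (h : H) (v : V) (w : W),
      corestrict β (h • v) (h • w) = h • corestrict β v w := by
    intro h v w
    apply Subtype.ext
    rw [hact, coe_corestrict, coe_corestrict, hβ]
  have hmem' := restrict_mem F β hβ hmem (AddSubgroup.closure {z : Z | ∃ v w, z = β v w})
    (fun v w => AddSubgroup.subset_closure ⟨v, w, rfl⟩)
    (closure_invariant hβ) hact (corestrict β) (coe_corestrict β) hβ'
  have hIII' : IsTypeIII' p (H := H) (corestrict β) := by
    obtain ⟨h1, h2, h3, h4, h5, h6, h7, h8, ⟨v, w, h9⟩⟩ := hIII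
    refine ⟨h1, h2, h3, h4, h5, h6, h7, h8, v, w, ?_⟩
    intro h
    exact h9 (congrArg Subtype.val h)
  have hgen := closure_corestrict β
  generalize corestrict β = γ at *
  -- the hat construction
  let A := hatSub (H := H) γ
  let α : V →+ W →+ A := corestrict (omHat (H := H) γ)
  have hαv : ∀ v w, ((α v w : A) : Sy H V W → _) = omHat (H := H) γ v w := fun v w => rfl
  have haltα : ∀ x y, ((altForm α x y : A) : Sy H V W → _) = altForm (omHat (H := H) γ) x y :=
    fun x y => rfl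
  refine core F p γ hβ' hIII' hgen hmem' (A := A) α (closure_corestrict _)
    (fun τ => (Pi.evalAddMonoidHom _ τ).comp A.subtype) ?_ ?_
    (fun δ => ((cc δ).comp A.subtype).codRestrict A (fun f => cc_mem γ δ f.1 f.2)) ?_ ?_
  · intro τ x y
    exact altForm_omHat γ x y τ
  · intro a ha
    apply Subtype.ext
    funext τ
    exact ha τ
  · intro δ x y
    apply Subtype.ext
    exact cc_altForm γ δ x y
  · intro δ
    apply Finite.surjective_of_injective
    rw [injective_iff_map_eq_zero]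
    intro f hf
    have hinj : Injective (fun τ : Sy H V W =>
        (⟨δ.1.trans τ.1, isSymmetry_trans τ.2 δ.2⟩ : Sy H V W)) := by
      intro τ τ' h
      have h' : δ.1.trans τ.1 = δ.1.trans τ'.1 := congrArg Subtype.val h
      apply Subtype.ext
      ext1 x
      obtain ⟨y, rfl⟩ := δ.1.surjective x
      exact congrArg (fun e : (V × W) ≃+ (V × W) => e y) h'
    have hsurj := Finite.surjective_of_injective hinj
    apply Subtype.ext
    funext τ
    obtain ⟨τ', rfl⟩ := hsurj τ
    have : cc δ f.1 = 0 := congrArg Subtype.val hf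
    exact congrFun this τ'

end Pool.Agent.Helper36.Form
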