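import Pool.Agent.Helper38.Form.Iface

/-!
# Homomorphisms between groups `Heis β ⋊ H` induced by symmetries
-/

namespace Pool.Agent.Helper36.Form

open Pool.Agent.Helper38.Form Function

section Alt

variable {H V W Z : Type} [Group H] [AddCommGroup V] [AddCommGroup W] [AddCommGroup Z]
  [DistribMulAction H V] [DistribMulAction H W] [DistribMulAction H Z]

theorem altForm_add_left (β : V →+ W →+ Z) (x x' y : V × W) :
    altForm β (x + x') y = altForm β x y + altForm β x' y := by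
  simp only [altForm, Prod.fst_add, Prod.snd_add, map_add, AddMonoidHom.add_apply]
  abel

theorem altForm_add_right (β : V →+ W →+ Z) (x y y' : V × W) :
    altForm β x (y + y') = altForm β x y + altForm β x y' := by
  simp only [altForm, Prod.fst_add, Prod.snd_add, map_add, AddMonoidHom.add_apply]
  abel

theorem altForm_swap (β : V →+ W →+ Z) (x y : V × W) : altForm β x y = - altForm β y x := by
  simp only [altForm]
  abel

theorem altForm_smul (β : V →+ W →+ Z)
    (hβ : ∀ (h : H) (v : V) (w : W), β (h • v) (h • w) = h • β v w) (h : H) (x y : V × W) :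
    altForm β (h • x) (h • y) = h • altForm β x y := by
  simp only [altForm, Prod.smul_fst, Prod.smul_snd, hβ, smul_sub]

@[simp] theorem altForm_VW (β : V →+ W →+ Z) (v : V) (w : W) :
    altForm β (v, 0) (0, w) = β v w := by
  simp [altForm]

/-- preserve or swap -/
def PS (τ : (V × W) ≃+ (V × W)) : Prop :=
  ((∀ v : V, (τ (v, 0)).2 = 0) ∧ (∀ w : W, (τ (0, w)).1 = 0)) ∨
    ((∀ v : V, (τ (v, 0)).1 = 0) ∧ (∀ w : W, (τ (0, w)).2 = 0))

theorem PS.alt_VV {τ : (V × W) ≃+ (V × W)} (h : PS τ) (β : V →+ W →+ Z) (v v' : V) :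
    altForm β (τ (v, 0)) (τ (v', 0)) = 0 := by
  rcases h with ⟨h, -⟩ | ⟨h, -⟩ <;> simp [altForm, h]

theorem PS.alt_WW {τ : (V × W) ≃+ (V × W)} (h : PS τ) (β : V →+ W →+ Z) (w w' : W) :
    altForm β (τ (0, w)) (τ (0, w')) = 0 := by
  rcases h with ⟨-, h⟩ | ⟨-, h⟩ <;> simp [altForm, h]

theorem PS.b_VV {τ : (V × W) ≃+ (V × W)} (h : PS τ) (β : V →+ W →+ Z) (v v' : V) :
    β (τ (v, 0)).1 (τ (v', 0)).2 = 0 := by
  rcases h with ⟨h, -⟩ | ⟨h, -⟩ <;> simp [h]

theorem PS.b_WW {τ : (V × W) ≃+ (V × W)} (h : PS τ) (β : V →+ W →+ Z) (w w' : W) :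
    β (τ (0, w)).1 (τ (0, w')).2 = 0 := by
  rcases h with ⟨-, h⟩ | ⟨-, h⟩ <;> simp [h]

theorem map_split (τ : (V × W) ≃+ (V × W)) (x : V × W) : τ x = τ (x.1, 0) + τ (0, x.2) := by
  rw [← map_add]
  simp

theorem PS.alt_eq {τ : (V × W) ≃+ (V × W)} (h : PS τ) (β : V →+ W →+ Z) (x y : V × W) :
    altForm β (τ x) (τ y) =
      altForm β (τ (x.1, 0)) (τ (0, y.2)) - altForm β (τ (y.1, 0)) (τ (0, x.2)) := by
  rw [map_split τ x, map_split τ y]
  rw [altForm_add_left, altForm_add_right, altForm_add_right, h.alt_VV, h.alt_WW,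
    altForm_swap β (τ (0, x.2)) (τ (y.1, 0))]
  abel

end Alt

section Theta

variable {H V W Z Z' : Type} [Group H] [AddCommGroup V] [AddCommGroup W] [AddCommGroup Z]
  [AddCommGroup Z'] [DistribMulAction H V] [DistribMulAction H W] [DistribMulAction H Z]
  [DistribMulAction H Z']

/-- the correction term -/
def qq (β' : V →+ W →+ Z') (τ : (V × W) ≃+ (V × W)) (x : V × W) : Z' :=
  β' (τ (0, x.2)).1 (τ (x.1, 0)).2

theorem qq_key {β : V →+ W →+ Z} {β' : V →+ W →+ Z'} {τ : (V × W) ≃+ (V × W)} (hPS : PS τ)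
    {c : Z →+ Z'} (hc : ∀ x y, altForm β' (τ x) (τ y) = c (altForm β x y)) (x y : V × W) :
    c (β x.1 y.2) + qq β' τ (x + y) = qq β' τ x + qq β' τ y + β' (τ x).1 (τ y).2 := by
  have h1 := hc (x.1, 0) (0, y.2)
  rw [altForm_VW] at h1
  rw [← h1]
  have e1 : τ ((x + y).1, 0) = τ (x.1, 0) + τ (y.1, 0) := by
    rw [← map_add]; simp
  have e2 : τ (0, (x + y).2) = τ (0, x.2) + τ (0, y.2) := by
    rw [← map_add]; simp
  have e3 := map_split τ x
  have e4 := map_split τ y
  have a1 := hPS.b_VV β' x.1 y.1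
  have a2 := hPS.b_WW β' x.2 y.2
  unfold qq
  rw [e1, e2, e3, e4]
  simp only [altForm, Prod.fst_add, Prod.snd_add, map_add, AddMonoidHom.add_apply]
  rw [a1, a2]
  abel

theorem qq_smul {β' : V →+ W →+ Z'}
    (hβ' : ∀ (h : H) (v : V) (w : W), β' (h • v) (h • w) = h • β' v w)
    {τ : (V × W) ≃+ (V × W)} {σ : H →* H} (hσ : ∀ (h : H) (x : V × W), τ (h • x) = σ h • τ x)
    (h : H) (x : V × W) : qq β' τ (h • x) = σ h • qq β' τ x := by
  have e1 : ((0 : V), (h • x).2) = h • ((0 : V), x.2) := by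
    ext <;> simp
  have e2 : ((h • x).1, (0 : W)) = h • (x.1, (0 : W)) := by
    ext <;> simp
  unfold qq
  rw [e1, e2, hσ, hσ, Prod.smul_fst, Prod.smul_snd, hβ']

/-- The homomorphism `Heis β ⋊ H → Heis β' ⋊ H` induced by a symmetry. -/
def theta {β : V →+ W →+ Z} {β' : V →+ W →+ Z'}
    (hβ : ∀ (h : H) (v : V) (w : W), β (h • v) (h • w) = h • β v w)
    (hβ' : ∀ (h : H) (v : V) (w : W), β' (h • v) (h • w) = h • β' v w)
    {τ : (V × W) ≃+ (V × W)} (hPS : PS τ)
    {c : Z →+ Z'} (hc : ∀ x y, altForm β' (τ x) (τ y) = c (altForm β x y))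
    {σ : H →* H} (hσ : ∀ (h : H) (x : V × W), τ (h • x) = σ h • τ x)
    (hcσ : ∀ (h : H) (z : Z), c (h • z) = σ h • c z) :
    Heis β ⋊[heisAct β hβ] H →* Heis β' ⋊[heisAct β' hβ'] H where
  toFun a := ⟨⟨(τ (a.left.v, a.left.w)).1, (τ (a.left.v, a.left.w)).2,
    c a.left.z + qq β' τ (a.left.v, a.left.w)⟩, σ a.right⟩
  map_one' := by
    have h0 : τ ((0 : V), (0 : W)) = 0 := map_zero τ
    ext
    · simp [h0]
    · simp [h0]
    · simp [h0, qq]
    · simp
  map_mul' a b := by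
    obtain ⟨⟨v, w, z⟩, h⟩ := a
    obtain ⟨⟨v', w', z'⟩, h'⟩ := b
    have e : ((v, w) : V × W) + h • (v', w') = (v + h • v', w + h • w') := rfl
    have e1 : τ (v + h • v', w + h • w') = τ (v, w) + σ h • τ (v', w') := by
      rw [← e, map_add, hσ]
    have k := qq_key (β := β) hPS hc (v, w) (h • (v', w'))
    rw [e, qq_smul hβ' hσ, hσ] at k
    have k' : c (β v (h • w')) + qq β' τ (v + h • v', w + h • w') =
      qq β' τ (v, w) + σ h • qq β' τ (v', w') + β' (τ (v, w)).1 (σ h • τ (v', w')).2 := k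
    ext
    · change (τ (v + h • v', w + h • w')).1 = (τ (v, w)).1 + σ h • (τ (v', w')).1
      rw [e1]; rfl
    · change (τ (v + h • v', w + h • w')).2 = (τ (v, w)).2 + σ h • (τ (v', w')).2
      rw [e1]; rfl
    · change c (z + h • z' + β v (h • w')) + qq β' τ (v + h • v', w + h • w') =
        c z + qq β' τ (v, w) + σ h • (c z' + qq β' τ (v', w')) +
          β' (τ (v, w)).1 (σ h • (τ (v', w')).2)
      rw [map_add, map_add, hcσ, add_assoc, k', smul_add, Prod.smul_snd]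
      abel
    · change σ (h * h') = σ h * σ h'
      rw [map_mul]

theorem theta_surjective {β : V →+ W →+ Z} {β' : V →+ W →+ Z'}
    (hβ : ∀ (h : H) (v : V) (w : W), β (h • v) (h • w) = h • β v w)
    (hβ' : ∀ (h : H) (v : V) (w : W), β' (h • v) (h • w) = h • β' v w)
    {τ : (V × W) ≃+ (V × W)} (hPS : PS τ)
    {c : Z →+ Z'} (hc : ∀ x y, altForm β' (τ x) (τ y) = c (altForm β x y))
    {σ : H →* H} (hσ : ∀ (h : H) (x : V × W), τ (h • x) = σ h • τ x)
    (hcσ : ∀ (h : H) (z : Z), c (h • z) = σ h • c z) (hσs : Surjective σ) (hcs : Surjective c) :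
    Surjective (theta hβ hβ' hPS hc hσ hcσ) := by
  rintro ⟨⟨v', w', z'⟩, h'⟩
  obtain ⟨h, rfl⟩ := hσs h'
  obtain ⟨⟨v, w⟩, hx⟩ := τ.surjective (v', w')
  obtain ⟨z, hz⟩ := hcs (z' - qq β' τ (v, w))
  refine ⟨⟨⟨v, w, z⟩, h⟩, ?_⟩
  ext
  · change (τ (v, w)).1 = v'
    rw [hx]
  · change (τ (v, w)).2 = w'
    rw [hx]
  · change c z + qq β' τ (v, w) = z'
    rw [hz]; abel
  · rfl

theorem theta_eq_one {β : V →+ W →+ Z} {β' : V →+ W →+ Z'}
    (hβ : ∀ (h : H) (v : V) (w : W), β (h • v) (h • w) = h • β v w)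
    (hβ' : ∀ (h : H) (v : V) (w : W), β' (h • v) (h • w) = h • β' v w)
    {τ : (V × W) ≃+ (V × W)} (hPS : PS τ)
    {c : Z →+ Z'} (hc : ∀ x y, altForm β' (τ x) (τ y) = c (altForm β x y))
    {σ : H →* H} (hσ : ∀ (h : H) (x : V × W), τ (h • x) = σ h • τ x)
    (hcσ : ∀ (h : H) (z : Z), c (h • z) = σ h • c z) (hσi : Injective σ)
    {a : Heis β ⋊[heisAct β hβ] H} (ha : theta hβ hβ' hPS hc hσ hcσ a = 1) :
    a.left.v = 0 ∧ a.left.w = 0 ∧ c a.left.z = 0 ∧ a.right = 1 := by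
  obtain ⟨⟨v, w, z⟩, h⟩ := a
  have h1 : (τ (v, w)).1 = 0 := congrArg (fun a => a.left.v) ha
  have h2 : (τ (v, w)).2 = 0 := congrArg (fun a => a.left.w) ha
  have h3 : c z + qq β' τ (v, w) = 0 := congrArg (fun a => a.left.z) ha
  have h4 : σ h = 1 := congrArg (fun a => a.right) ha
  have h5 : τ (v, w) = 0 := Prod.ext h1 h2
  have h6 : ((v, w) : V × W) = 0 := by
    apply τ.injective
    rw [h5, map_zero]
  obtain ⟨hv, hw⟩ : v = 0 ∧ w = 0 := ⟨congrArg Prod.fst h6, congrArg Prod.snd h6⟩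
  subst hv hw
  refine ⟨rfl, rfl, ?_, hσi (by rw [h4, map_one])⟩
  have : qq β' τ ((0 : V), (0 : W)) = 0 := by
    have h0 : τ ((0 : V), (0 : W)) = 0 := map_zero τ
    simp [qq, h0]
  rwa [this, add_zero] at h3

end Theta

section Sigma

variable {H V W : Type} [Group H] [AddCommGroup V] [AddCommGroup W]
  [DistribMulAction H V] [DistribMulAction H W]

theorem exists_sigma [Finite H]
    (hfaith : ∀ h : H, (∀ v : V, h • v = v) → (∀ w : W, h • w = w) → h = 1)
    {τ : (V × W) ≃+ (V × W)} (hτ : IsSymmetry H τ) :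
    ∃ σ : H →* H, (∀ (h : H) (x : V × W), τ (h • x) = σ h • τ x) ∧ Bijective σ := by
  have hf : ∀ g h : H, (∀ x : V × W, g • x = h • x) → g = h := by
    intro g h hx
    have : h⁻¹ * g = 1 := by
      apply hfaith
      · intro v
        have := congrArg Prod.fst (hx (v, 0))
        have h2 : g • v = h • v := this
        rw [mul_smul, h2, inv_smul_smul]
      · intro w
        have := congrArg Prod.snd (hx (0, w))
        have h2 : g • w = h • w := this
        rw [mul_smul, h2, inv_smul_smul]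
    exact (inv_mul_eq_one.1 this).symm
  choose s hs using hτ.2
  have hs' : ∀ g h : H, (∀ x, g • τ x = h • τ x) → g = h := by
    intro g h hx
    apply hf
    intro x
    obtain ⟨y, rfl⟩ := τ.surjective x
    exact hx y
  let σ : H →* H := MonoidHom.mk' s (by
    intro g h
    apply hs'
    intro x
    rw [← hs, mul_smul, mul_smul, ← hs, ← hs])
  refine ⟨σ, hs, ?_⟩
  have hinj : Injective σ := by
    intro g h hgh
    apply hf
    intro x
    apply τ.injective
    rw [hs, hs]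
    exact congrArg (fun k => k • τ x) hgh
  exact ⟨hinj, Finite.surjective_of_injective hinj⟩

end Sigma

end Pool.Agent.Helper36.Form
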